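import Pool.Agent.Run7.h284.VX.Cs

/-!
# Real functions of small degree: products, the spectral inequality, amplification
-/

set_option autoImplicit false

namespace Pool.Agent.H284.VX

open Finset H568R2 Pool.Agent.H284.PS

section deg

variable {I : Type} [DecidableEq I]

lemma DegLE.mul : ∀ (n s t : ℕ), s + t = n → ∀ {P Q : (I → Bool) → ℝ}, DegLE s P → DegLE t Q →
    DegLE n (fun x => P x * Q x) := by
  intro n
  induction n with
  | zero =>
    intro s t hst P Q hP hQ
    obtain ⟨rfl, rfl⟩ : s = 0 ∧ t = 0 := by omega
    intro x y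
    show P x * Q x = P y * Q y
    rw [hP x y, hQ x y]
  | succ n ih =>
    intro s t hst P Q hP hQ
    rcases s with _ | s
    · have h1 : (fun x => P x * Q x) = fun x => P (fun _ => false) * Q x := by
        funext x
        rw [hP x (fun _ => false)]
      rw [h1]
      apply DegLE.smul
      have h2 : t = n + 1 := by omega
      rw [← h2]
      exact hQ
    · rcases t with _ | t
      · have h1 : (fun x => P x * Q x) = fun x => Q (fun _ => false) * P x := by
          funext x
          rw [hQ x (fun _ => false)]
          ring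
        rw [h1]
        apply DegLE.smul
        have h2 : s + 1 = n + 1 := by omega
        rw [← h2]
        exact hP
      · intro i
        have h1 : Dv i (fun x => P x * Q x) = fun x =>
            Dv i P x * Q (Function.update x i true) + P (Function.update x i false) * Dv i Q x := by
          funext x
          unfold Dv
          ring
        rw [h1]
        apply DegLE.add
        · exact ih s (t + 1) (by omega) (hP i) (DegLE.fix i true (t + 1) hQ)
        · exact ih (s + 1) t (by omega) (DegLE.fix i false (s + 1) hP) (hQ i)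

lemma DegLE.pow {D : ℕ} {P : (I → Bool) → ℝ} (hP : DegLE D P) : ∀ k : ℕ,
    DegLE (k * D) (fun x => P x ^ k)
  | 0 => by
    have h1 : (fun x => P x ^ 0) = fun _ => (1 : ℝ) := by
      funext x
      exact pow_zero _
    rw [h1]
    exact DegLE.const 1 _
  | k + 1 => by
    have h1 : (fun x => P x ^ (k + 1)) = fun x => P x ^ k * P x := by
      funext x
      exact pow_succ _ _
    rw [h1]
    exact DegLE.mul _ (k * D) D (by ring) (DegLE.pow hP k) hP

/-- the amplification polynomial -/
noncomputable def BP (j : ℕ) (t : ℝ) : ℝ :=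
  ∑ i ∈ range (2 * j + 1), if j < i then t ^ i * (1 - t) ^ (2 * j - i) * (2 * j).choose i else 0

lemma DegLE.BP {D : ℕ} {P : (I → Bool) → ℝ} (hP : DegLE D P) (j : ℕ) :
    DegLE (2 * j * D) (fun x => BP j (P x)) := by
  unfold VX.BP
  apply DegLE.sum
  intro i hi
  rw [Finset.mem_range] at hi
  by_cases hij : j < i
  · simp only [if_pos hij]
    have h1 : (fun x => P x ^ i * (1 - P x) ^ (2 * j - i) * ((2 * j).choose i : ℝ)) =
        fun x => ((2 * j).choose i : ℝ) * (P x ^ i * (1 - P x) ^ (2 * j - i)) := by
      funext x
      ring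
    rw [h1]
    apply DegLE.smul
    refine DegLE.mul _ (i * D) ((2 * j - i) * D) ?_ (DegLE.pow hP i) (DegLE.pow ?_ _)
    · rw [← add_mul]
      congr 1
      omega
    · have h2 : (fun x => 1 - P x) = fun x => 1 + (-1) * P x := by
        funext x
        ring
      rw [h2]
      exact DegLE.add D (DegLE.const 1 D) (DegLE.smul (-1) D hP)
  · simp only [if_neg hij]
    exact DegLE.const 0 _

end deg

lemma BP_nonneg {j : ℕ} {t : ℝ} (h0 : 0 ≤ t) (h1 : t ≤ 1) : 0 ≤ BP j t := by
  unfold BP
  apply Finset.sum_nonneg
  intro i _
  split_ifs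
  · have : 0 ≤ 1 - t := by linarith
    positivity
  · exact le_rfl

lemma four (j : ℕ) {t : ℝ} : ∑ i ∈ range (2 * j + 1), (t * (1 - t)) ^ j * ((2 * j).choose i : ℝ) =
    (4 * (t * (1 - t))) ^ j := by
  rw [← Finset.mul_sum]
  have h1 : ∑ i ∈ range (2 * j + 1), ((2 * j).choose i : ℝ) = 4 ^ j := by
    have h2 := Nat.sum_range_choose (2 * j)
    have h3 : (∑ i ∈ range (2 * j + 1), ((2 * j).choose i : ℝ)) = ((2 ^ (2 * j) : ℕ) : ℝ) := by
      rw [← h2]
      push_cast
      rfl
    rw [h3, pow_mul]
    push_cast
    norm_num
  rw [h1, mul_pow (4 : ℝ) (t * (1 - t)) j, mul_comm]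

lemma BP_small {j : ℕ} {t : ℝ} (h0 : 0 ≤ t) (h1 : t ≤ 2 / 5) : BP j t ≤ (24 / 25) ^ j := by
  have ht : 0 ≤ 1 - t := by linarith
  have h2 : BP j t ≤ (4 * (t * (1 - t))) ^ j := by
    rw [← four]
    unfold BP
    apply Finset.sum_le_sum
    intro i hi
    rw [Finset.mem_range] at hi
    split_ifs with hij
    · apply mul_le_mul_of_nonneg_right _ (Nat.cast_nonneg _)
      obtain ⟨a, rfl⟩ : ∃ a, i = j + a := ⟨i - j, by omega⟩
      have e1 : (1 - t) ^ j = (1 - t) ^ a * (1 - t) ^ (2 * j - (j + a)) := by
        rw [← pow_add]
        congr 1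
        omega
      have e2 : t ^ a ≤ (1 - t) ^ a := pow_le_pow_left₀ h0 (by linarith) a
      calc t ^ (j + a) * (1 - t) ^ (2 * j - (j + a)) =
            t ^ j * (t ^ a * (1 - t) ^ (2 * j - (j + a))) := by rw [pow_add]; ring
        _ ≤ t ^ j * ((1 - t) ^ a * (1 - t) ^ (2 * j - (j + a))) := by
            apply mul_le_mul_of_nonneg_left _ (by positivity)
            exact mul_le_mul_of_nonneg_right e2 (by positivity)
        _ = (t * (1 - t)) ^ j := by rw [← e1, mul_pow]
    · positivity
  refine h2.trans (pow_le_pow_left₀ (by positivity) ?_ j)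
  nlinarith

lemma BP_big {j : ℕ} {t : ℝ} (h0 : 3 / 5 ≤ t) (h1 : t ≤ 1) :
    1 - (24 / 25) ^ j ≤ BP j t ∧ BP j t ≤ 1 := by
  have ht : 0 ≤ 1 - t := by linarith
  have ht0 : 0 ≤ t := by linarith
  have hone : ∑ i ∈ range (2 * j + 1), t ^ i * (1 - t) ^ (2 * j - i) * ((2 * j).choose i : ℝ) =
      1 := by
    rw [← add_pow]
    rw [add_sub_cancel, one_pow]
  have hdec : BP j t + ∑ i ∈ range (2 * j + 1), (if j < i then 0 else
      t ^ i * (1 - t) ^ (2 * j - i) * ((2 * j).choose i : ℝ)) = 1 := by
    refine Eq.trans ?_ hone
    unfold BP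
    rw [← Finset.sum_add_distrib]
    apply Finset.sum_congr rfl
    intro i _
    split_ifs <;> ring
  have h2 : ∑ i ∈ range (2 * j + 1), (if j < i then 0 else
      t ^ i * (1 - t) ^ (2 * j - i) * ((2 * j).choose i : ℝ)) ≤ (4 * (t * (1 - t))) ^ j := by
    rw [← four]
    apply Finset.sum_le_sum
    intro i hi
    split_ifs with hij
    · positivity
    · apply mul_le_mul_of_nonneg_right _ (Nat.cast_nonneg _)
      obtain ⟨a, rfl⟩ : ∃ a, j = i + a := ⟨j - i, by omega⟩
      have e2 : (1 - t) ^ a ≤ t ^ a := pow_le_pow_left₀ ht (by linarith) a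
      have e3 : 2 * (i + a) - i = (i + a) + a := by omega
      calc t ^ i * (1 - t) ^ (2 * (i + a) - i) = t ^ i * (1 - t) ^ (i + a) * (1 - t) ^ a := by
            rw [e3, pow_add (1 - t) (i + a) a]
            ring
        _ ≤ t ^ i * (1 - t) ^ (i + a) * t ^ a := mul_le_mul_of_nonneg_left e2 (by positivity)
        _ = (t * (1 - t)) ^ (i + a) := by
            rw [mul_pow, pow_add t i a]
            ring
  have h3 : (4 * (t * (1 - t))) ^ j ≤ (24 / 25 : ℝ) ^ j := by
    apply pow_le_pow_left₀ (by positivity)
    nlinarith
  have h4 : 0 ≤ ∑ i ∈ range (2 * j + 1), (if j < i then 0 else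
      t ^ i * (1 - t) ^ (2 * j - i) * ((2 * j).choose i : ℝ)) := by
    apply Finset.sum_nonneg
    intro i _
    split_ifs
    · exact le_rfl
    · positivity
  constructor <;> linarith

section l2

variable {I : Type} [Fintype I] [DecidableEq I]

omit [Fintype I] in
lemma chi_flip (x : I → Bool) (i : I) : chi ((PS.flip x i) i) = - chi (x i) := by
  unfold PS.flip chi
  rw [Function.update_self]
  cases x i <;> simp

lemma Ex_orth (a : I) (G u v : (I → Bool) → ℝ) (hG : ∀ x, G x = u x + chi (x a) * v x)
    (hu : ∀ x, u (PS.flip x a) = u x) (hv : ∀ x, v (PS.flip x a) = v x) :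
    Ex uw (fun x => G x ^ 2) = Ex uw (fun x => u x ^ 2) + Ex uw (fun x => v x ^ 2) := by
  rw [Ex_symm a, ← Ex_add]
  congr 1
  funext x
  rw [hG, hG, hu, hv, chi_flip]
  have := chi_sq (x a)
  have h2 : chi (x a) ^ 2 = 1 := by rw [sq]; exact this
  calc ((u x + chi (x a) * v x) ^ 2 + (u x + -chi (x a) * v x) ^ 2) / 2 =
        u x ^ 2 + chi (x a) ^ 2 * v x ^ 2 := by ring
    _ = u x ^ 2 + v x ^ 2 := by rw [h2, one_mul]

/-- **The spectral inequality.** -/
theorem l2 (M : Finset I) : ∀ (t : ℕ) (P : (I → Bool) → ℝ), DegLE t P → OnlyOn M P →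
    ∑ i ∈ M, Ex uw (fun x => Dv i P x ^ 2) ≤ 4 * t * Ex uw (fun x => P x ^ 2) := by
  induction M using Finset.induction_on with
  | empty =>
    intro t P _ _
    rw [Finset.sum_empty]
    have : 0 ≤ Ex uw (fun x => P x ^ 2) := Ex_nonneg uw_nonneg fun x => sq_nonneg _
    positivity
  | insert a M ha ih =>
    intro t P hP hM
    rcases t with _ | t
    · have h1 : ∀ i, (fun x => Dv i P x ^ 2) = fun _ => (0 : ℝ) := by
        intro i
        funext x
        unfold Dv
        rw [hP (Function.update x i true) (Function.update x i false), sub_self]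
        ring
      simp only [h1]
      rw [Ex_const uw_sum]
      simp
    · obtain ⟨u, hu⟩ : ∃ u : (I → Bool) → ℝ, u = fun x =>
          (1 / 2) * P (Function.update x a true) + (1 / 2) * P (Function.update x a false) :=
        ⟨_, rfl⟩
      obtain ⟨v, hv⟩ : ∃ v : (I → Bool) → ℝ, v = fun x => (1 / 2) * Dv a P x := ⟨_, rfl⟩
      have hud : DegLE (t + 1) u := by
        rw [hu]
        exact DegLE.add _ (DegLE.smul _ _ (DegLE.fix a true _ hP))
          (DegLE.smul _ _ (DegLE.fix a false _ hP))
      have hvd : DegLE t v := by
        rw [hv]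
        exact DegLE.smul _ _ (hP a)
      have key : ∀ x y : I → Bool, (∀ i ∈ M, x i = y i) → ∀ b,
          P (Function.update x a b) = P (Function.update y a b) := by
        intro x y hxy b
        apply hM
        intro i hi
        by_cases hia : i = a
        · subst hia; simp
        · rw [Function.update_of_ne hia, Function.update_of_ne hia]
          rcases Finset.mem_insert.1 hi with h | h
          · exact absurd h hia
          · exact hxy i h
      have huM : OnlyOn M u := by
        intro x y hxy
        rw [hu]
        simp only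
        rw [key x y hxy true, key x y hxy false]
      have hvM : OnlyOn M v := by
        intro x y hxy
        rw [hv]
        simp only
        unfold Dv
        rw [key x y hxy true, key x y hxy false]
      have hfl : ∀ x b, Function.update (PS.flip x a) a b = Function.update x a b := by
        intro x b
        unfold PS.flip
        simp
      have hflu : ∀ x, u (PS.flip x a) = u x := by
        intro x
        rw [hu]
        simp only [hfl]
      have hflv : ∀ x, v (PS.flip x a) = v x := by
        intro x
        rw [hv]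
        simp only
        rw [dv_flip]
      have hPuv : ∀ x, P x = u x + chi (x a) * v x := by
        intro x
        rw [hu, hv]
        simp only
        unfold Dv
        rcases hx : x a with _ | _
        · have h1 : Function.update x a false = x := by
            rw [← hx]; exact Function.update_eq_self a x
          have c2 : chi false = -1 := by unfold chi; simp
          rw [c2, h1]
          ring
        · have h1 : Function.update x a true = x := by
            rw [← hx]; exact Function.update_eq_self a x
          have c1 : chi true = 1 := rfl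
          rw [c1, h1]
          ring
      have hE : Ex uw (fun x => P x ^ 2) = Ex uw (fun x => u x ^ 2) + Ex uw (fun x => v x ^ 2) :=
        Ex_orth a P u v hPuv hflu hflv
      have hEi : ∀ i ∈ M, Ex uw (fun x => Dv i P x ^ 2) =
          Ex uw (fun x => Dv i u x ^ 2) + Ex uw (fun x => Dv i v x ^ 2) := by
        intro i hi
        have hia : i ≠ a := fun h => ha (h ▸ hi)
        have hfl2 : ∀ (x : I → Bool) (b : Bool), Function.update (PS.flip x a) i b =
            PS.flip (Function.update x i b) a := by
          intro x b
          unfold PS.flip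
          rw [Function.update_comm hia, Function.update_of_ne hia.symm]
        refine Ex_orth a (Dv i P) (Dv i u) (Dv i v) ?_ ?_ ?_
        · intro x
          unfold Dv
          rw [hPuv (Function.update x i true), hPuv (Function.update x i false),
            Function.update_of_ne hia.symm, Function.update_of_ne hia.symm]
          ring
        · intro x
          unfold Dv
          rw [hfl2, hfl2, hflu, hflu]
        · intro x
          unfold Dv
          rw [hfl2, hfl2, hflv, hflv]
      have hEa : Ex uw (fun x => Dv a P x ^ 2) = 4 * Ex uw (fun x => v x ^ 2) := by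
        rw [← Ex_smul]
        congr 1
        funext x
        rw [hv]
        simp only
        ring
      rw [Finset.sum_insert ha, hEa, Finset.sum_congr rfl hEi, Finset.sum_add_distrib, hE]
      have i1 := ih (t + 1) u hud huM
      have i2 := ih t v hvd hvM
      push_cast at i1 ⊢
      linarith

end l2

end Pool.Agent.H284.VX
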