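import Pool.Agent.Run7.h284.VX.Thr

/-!
# The average sensitivity of functions with differences of constant sign
-/

set_option autoImplicit false

namespace Pool.Agent.H284.VX

open Finset H568R2 Pool.Agent.H284.PS Pool.Agent.TH163.AC3

variable {I : Type} [Fintype I] [DecidableEq I]

/-- The second moment method. -/
lemma as_le (P : (I → Bool) → ℝ) (s : I → (I → Bool) → ℝ) (hs : ∀ i x, s i x * s i x = 1)
    (hsens : ∀ i, Ex uw (fun x => sg (P x) * (chi (x i) * s i x)) =
      Ex uw (sn (fun y => decide (0 < P y)) i))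
    (c : I → I → ℝ) (hc0 : ∀ i j, 0 ≤ c i j) {a : ℝ}
    (hpair : ∀ i j, i ≠ j → Ex uw (fun x => (chi (x i) * s i x) * (chi (x j) * s j x)) ≤ c i j)
    (hsum : ∀ j, ∑ i, c i j ≤ a) :
    Ex uw (fun x => (SS (fun y => decide (0 < P y)) x : ℝ)) ≤
      Real.sqrt (Fintype.card I + Fintype.card I * a) := by
  obtain ⟨m, hm⟩ : ∃ m : ℝ, m = Fintype.card I := ⟨_, rfl⟩
  have hm0 : 0 ≤ m := by rw [hm]; positivity
  rw [← hm]
  obtain ⟨W, hW⟩ : ∃ W : (I → Bool) → ℝ, W = fun x => ∑ i, chi (x i) * s i x := ⟨_, rfl⟩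
  have h1 : Ex uw (fun x => (SS (fun y => decide (0 < P y)) x : ℝ)) =
      Ex uw (fun x => sg (P x) * W x) := by
    simp only [SS_eq_sum]
    rw [Ex_sum, hW]
    simp only [Finset.mul_sum]
    rw [Ex_sum]
    apply Finset.sum_congr rfl
    intro i _
    exact (hsens i).symm
  have h2 : Ex uw (fun x => W x ^ 2) ≤ m + m * a := by
    have e1 : (fun x => W x ^ 2) = fun x => ∑ i, ∑ j,
        (chi (x i) * s i x) * (chi (x j) * s j x) := by
      funext x
      rw [hW, sq, Finset.sum_mul_sum]
    rw [e1, Ex_sum]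
    have e2 : ∀ i ∈ (univ : Finset I), Ex uw (fun x => ∑ j,
        (chi (x i) * s i x) * (chi (x j) * s j x)) ≤ 1 + ∑ j, c i j := by
      intro i _
      rw [Ex_sum]
      have e3 : ∀ j ∈ (univ : Finset I), Ex uw (fun x =>
          (chi (x i) * s i x) * (chi (x j) * s j x)) ≤ (if i = j then 1 else 0) + c i j := by
        intro j _
        by_cases hij : i = j
        · subst hij
          rw [if_pos rfl]
          have e4 : (fun x : I → Bool => (chi (x i) * s i x) * (chi (x i) * s i x)) =
              fun _ => 1 := by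
            funext x
            calc (chi (x i) * s i x) * (chi (x i) * s i x) =
                (chi (x i) * chi (x i)) * (s i x * s i x) := by ring
              _ = 1 := by rw [chi_sq, hs, one_mul]
          rw [e4, Ex_const uw_sum]
          have := hc0 i i
          linarith
        · rw [if_neg hij, zero_add]
          exact hpair i j hij
      refine (Finset.sum_le_sum e3).trans (le_of_eq ?_)
      rw [Finset.sum_add_distrib, Finset.sum_ite_eq, if_pos (mem_univ i)]
    refine (Finset.sum_le_sum e2).trans ?_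
    rw [Finset.sum_add_distrib, Finset.sum_const, Finset.card_univ, nsmul_eq_mul, mul_one, ← hm,
      Finset.sum_comm]
    apply add_le_add le_rfl
    refine (Finset.sum_le_sum fun j _ => hsum j).trans (le_of_eq ?_)
    rw [Finset.sum_const, Finset.card_univ, nsmul_eq_mul, hm]
  rw [h1]
  apply Real.le_sqrt_of_sq_le
  refine le_trans ?_ h2
  obtain ⟨e, he⟩ : ∃ e, e = Ex uw (fun x => sg (P x) * W x) := ⟨_, rfl⟩
  rw [← he]
  have h3 : Ex uw (fun x : I → Bool => 2 * e * (sg (P x) * W x) + -(e ^ 2)) ≤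
      Ex uw (fun x => W x ^ 2) := by
    apply Ex_mono uw_nonneg
    intro x
    have h4 : (sg (P x) * W x) ^ 2 = W x ^ 2 := by
      rw [mul_pow, sq, sg_sq, one_mul]
    nlinarith [sq_nonneg (sg (P x) * W x - e)]
  rw [Ex_add, Ex_smul, Ex_const uw_sum, ← he] at h3
  nlinarith [h3]

/-- all differences of order `t + 1` have constant sign -/
def WC : ℕ → ((I → Bool) → ℝ) → Prop
  | 0, P => ∀ i, (∀ x, 0 ≤ Dv i P x) ∨ (∀ x, Dv i P x ≤ 0)
  | t + 1, P => ∀ i, WC t (Dv i P)

omit [Fintype I] in
/-- a sensitive bit is correlated with the constant sign of the derivative -/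
lemma sens_const (P : (I → Bool) → ℝ) (i : I) {s : ℝ}
    (hs : (s = 1 ∧ ∀ x, 0 ≤ Dv i P x) ∨ (s = -1 ∧ ∀ x, Dv i P x ≤ 0)) (x : I → Bool) :
    (sg (P x) * (chi (x i) * s) +
      sg (P (PS.flip x i)) * (chi ((PS.flip x i) i) * s)) / 2 =
      sn (fun y => decide (0 < P y)) i x := by
  obtain ⟨u, hu⟩ : ∃ u, u = P (Function.update x i true) := ⟨_, rfl⟩
  obtain ⟨v, hv⟩ : ∃ v, v = P (Function.update x i false) := ⟨_, rfl⟩
  have hD : Dv i P x = u - v := by rw [hu, hv]; rfl
  have hs' : (s = 1 ∧ v ≤ u) ∨ (s = -1 ∧ u ≤ v) := by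
    rcases hs with ⟨h1, h2⟩ | ⟨h1, h2⟩
    · left
      have := h2 x
      rw [hD] at this
      exact ⟨h1, by linarith⟩
    · right
      have := h2 x
      rw [hD] at this
      exact ⟨h1, by linarith⟩
  have hsn : sn (fun y => decide (0 < P y)) i x =
    if decide (0 < P (PS.flip x i)) ≠ decide (0 < P x) then 1 else 0 := rfl
  rw [hsn]
  have c1 : chi true = 1 := rfl
  have c2 : chi false = -1 := by unfold chi; simp
  rcases hx : x i with _ | _
  · have h1 : Function.update x i false = x := by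
      rw [← hx]; exact Function.update_eq_self i x
    have h2 : PS.flip x i = Function.update x i true := by
      unfold PS.flip; rw [hx]; rfl
    have h3 : (PS.flip x i) i = true := by rw [h2]; simp
    rw [h3, h2, ← hu]
    have h4 : P x = v := by rw [hv, h1]
    rw [h4, c1, c2]
    rcases hs' with ⟨h5, h6⟩ | ⟨h5, h6⟩ <;> rw [h5] <;> by_cases a1 : 0 < u <;>
      by_cases a2 : 0 < v
    · rw [sg_pos a1, sg_pos a2]; simp [a1, a2]
    · rw [sg_pos a1, sg_neg a2]; simp [a1, a2]
    · exact absurd (lt_of_lt_of_le a2 h6) a1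
    · rw [sg_neg a1, sg_neg a2]; simp [a1, a2]
    · rw [sg_pos a1, sg_pos a2]; simp [a1, a2]
    · exact absurd (lt_of_lt_of_le a1 h6) a2
    · rw [sg_neg a1, sg_pos a2]; simp [a1, a2]
    · rw [sg_neg a1, sg_neg a2]; simp [a1, a2]
  · have h1 : Function.update x i true = x := by
      rw [← hx]; exact Function.update_eq_self i x
    have h2 : PS.flip x i = Function.update x i false := by
      unfold PS.flip; rw [hx]; rfl
    have h3 : (PS.flip x i) i = false := by rw [h2]; simp
    rw [h3, h2, ← hv]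
    have h4 : P x = u := by rw [hu, h1]
    rw [h4, c1, c2]
    rcases hs' with ⟨h5, h6⟩ | ⟨h5, h6⟩ <;> rw [h5] <;> by_cases a1 : 0 < u <;>
      by_cases a2 : 0 < v
    · rw [sg_pos a1, sg_pos a2]; simp [a1, a2]
    · rw [sg_pos a1, sg_neg a2]; simp [a1, a2]
    · exact absurd (lt_of_lt_of_le a2 h6) a1
    · rw [sg_neg a1, sg_neg a2]; simp [a1, a2]
    · rw [sg_pos a1, sg_pos a2]; simp [a1, a2]
    · exact absurd (lt_of_lt_of_le a1 h6) a2
    · rw [sg_neg a1, sg_pos a2]; simp [a1, a2]
    · rw [sg_neg a1, sg_neg a2]; simp [a1, a2]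

/-- **The average sensitivity of a function with differences of constant sign.** -/
theorem cs_avg : ∀ (t : ℕ) (P : (I → Bool) → ℝ), WC t P →
    Ex uw (fun x => (SS (fun y => decide (0 < P y)) x : ℝ)) ≤
      aa (Fintype.card I : ℝ) (t + 1) := by
  classical
  intro t
  induction t with
  | zero =>
    intro P hP
    obtain ⟨s, hs⟩ : ∃ s : I → ℝ, ∀ i, (s i = 1 ∧ ∀ x, 0 ≤ Dv i P x) ∨
        (s i = -1 ∧ ∀ x, Dv i P x ≤ 0) := by
      have h1 : ∀ i, ∃ s : ℝ, (s = 1 ∧ ∀ x, 0 ≤ Dv i P x) ∨ (s = -1 ∧ ∀ x, Dv i P x ≤ 0) := by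
        intro i
        rcases hP i with h | h
        · exact ⟨1, Or.inl ⟨rfl, h⟩⟩
        · exact ⟨-1, Or.inr ⟨rfl, h⟩⟩
      choose s hs using h1
      exact ⟨s, hs⟩
    have hs2 : ∀ i, s i * s i = 1 := by
      intro i
      rcases hs i with ⟨h, -⟩ | ⟨h, -⟩ <;> rw [h] <;> norm_num
    have h1 := as_le P (fun i _ => s i) (fun i _ => hs2 i) (by
      intro i
      rw [Ex_symm i]
      congr 1
      funext x
      exact sens_const P i (hs i) x) (fun _ _ => 0) (fun _ _ => le_rfl) (a := 0) (by
      intro i j hij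
      rw [Ex_symm i]
      have e1 : (fun x : I → Bool => ((chi (x i) * s i) * (chi (x j) * s j) +
          (chi ((PS.flip x i) i) * s i) * (chi ((PS.flip x i) j) * s j)) / 2) =
          fun _ => 0 := by
        funext x
        have h1 : (PS.flip x i) j = x j := by
          unfold PS.flip
          rw [Function.update_of_ne hij.symm]
        have h2 : chi ((PS.flip x i) i) = - chi (x i) := by
          unfold PS.flip chi
          rw [Function.update_self]
          cases x i <;> simp
        rw [h1, h2]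
        ring
      rw [e1, Ex_const uw_sum]) (by
      intro j
      simp)
    exact h1
  | succ t ih =>
    intro P hP
    show _ ≤ Real.sqrt (Fintype.card I + Fintype.card I * aa (Fintype.card I : ℝ) (t + 1))
    refine as_le P (fun i x => sg (Dv i P x)) (fun i x => sg_sq _) (fun i => Ex_sens P i)
      (fun i j => Ex uw (sn (fun y => decide (0 < Dv j P y)) i))
      (fun i j => Ex_nonneg uw_nonneg (sn_nonneg _ i)) (fun i j hij => Ex_pair P hij) ?_
    intro j
    have e6 := ih (Dv j P) (hP j)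
    simp only [SS_eq_sum] at e6
    rw [Ex_sum] at e6
    exact e6

end Pool.Agent.H284.VX
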