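import Pool.Agent.Run7.h284.VX.Defs
import Pool.Agent.Run7.h284.PS.Sens

/-!
# Parity and 3-satisfiability
-/

set_option autoImplicit false

namespace Pool.Agent.H284.VX

open Finset Pool.Agent.H284.PS

/-- flipping one bit changes the parity -/
lemma parity_flip {n : ℕ} (x : Fin n → Bool) (i : Fin n) :
    decide (Odd (univ.filter fun k => (PS.flip x i) k = true).card) ≠
      decide (Odd (univ.filter fun k => x k = true).card) := by
  classical
  have key : ∀ y : Fin n → Bool, y i = false →
      (univ.filter fun k => (PS.flip y i) k = true).card =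
        (univ.filter fun k => y k = true).card + 1 := by
    intro y hy
    have h1 : (univ.filter fun k => (PS.flip y i) k = true) =
        insert i (univ.filter fun k => y k = true) := by
      ext k
      simp only [Finset.mem_filter, Finset.mem_univ, true_and, Finset.mem_insert]
      unfold PS.flip
      by_cases hk : k = i
      · subst hk
        simp [hy]
      · simp [hk]
    rw [h1, Finset.card_insert_of_notMem]
    simp [hy]
  have hff : PS.flip (PS.flip x i) i = x := by
    funext k
    unfold PS.flip
    by_cases hk : k = i
    · subst hk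
      simp
    · simp [Function.update_of_ne hk]
  intro h
  rw [decide_eq_decide] at h
  rcases hx : x i with _ | _
  · rw [key x hx, Nat.odd_add_one] at h
    tauto
  · have h2 : (PS.flip x i) i = false := by
      unfold PS.flip
      simp [hx]
    have h3 := key (PS.flip x i) h2
    rw [hff] at h3
    rw [h3, Nat.odd_add_one] at h
    tauto

section sat

open Classical in
/-- 3-satisfiability. The input is a list of clauses `k : K` with three literals each (which may be
equal). A literal is given by `l` bits, the code of its variable, and by one bit, its sign; `dec`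
decodes the variable. The answer is whether some assignment of truth values to the variables
satisfies all clauses. -/
noncomputable def sat3 {K X : Type} {l : ℕ} (dec : (Fin l → Bool) → X)
    (y : K × Fin 3 × Option (Fin l) → Bool) : Bool :=
  decide (∃ a : X → Bool, ∀ k, ∃ p, a (dec fun t => y (k, p, some t)) = y (k, p, none))

lemma sat3_iff {K X : Type} {l : ℕ} (dec : (Fin l → Bool) → X)
    (y : K × Fin 3 × Option (Fin l) → Bool) :
    sat3 dec y = true ↔
      ∃ a : X → Bool, ∀ k, ∃ p, a (dec fun t => y (k, p, some t)) = y (k, p, none) := by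
  classical
  unfold sat3
  rw [decide_eq_true_iff]

end sat

/-- the prefix parities -/
def pp {n : ℕ} (x : Fin n → Bool) : ℕ → Bool
  | 0 => false
  | k + 1 => xor (pp x k) (if h : k < n then x ⟨k, h⟩ else false)

lemma pp_eq {n : ℕ} (x : Fin n → Bool) (k : ℕ) (hk : k ≤ n) :
    pp x k = decide (Odd (univ.filter fun i : Fin n => i.val < k ∧ x i = true).card) := by
  classical
  induction k with
  | zero => simp [pp]
  | succ k ih =>
    have hkn : k < n := hk
    rw [pp, ih (by omega), dif_pos hkn]
    rcases hx : x ⟨k, hkn⟩ with _ | _
    · have h1 : (univ.filter fun i : Fin n => i.val < k + 1 ∧ x i = true) =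
          (univ.filter fun i : Fin n => i.val < k ∧ x i = true) := by
        ext i
        simp only [Finset.mem_filter, Finset.mem_univ, true_and]
        constructor
        · rintro ⟨h2, h3⟩
          refine ⟨?_, h3⟩
          by_contra h4
          have h5 : i = ⟨k, hkn⟩ := by
            apply Fin.ext
            show i.val = k
            omega
          rw [h5, hx] at h3
          exact absurd h3 (by simp)
        · rintro ⟨h2, h3⟩
          exact ⟨by omega, h3⟩
      rw [h1]
      simp
    · have h1 : (univ.filter fun i : Fin n => i.val < k + 1 ∧ x i = true) =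
          insert ⟨k, hkn⟩ (univ.filter fun i : Fin n => i.val < k ∧ x i = true) := by
        ext i
        simp only [Finset.mem_filter, Finset.mem_univ, true_and, Finset.mem_insert]
        constructor
        · rintro ⟨h2, h3⟩
          by_cases h4 : i.val < k
          · exact Or.inr ⟨h4, h3⟩
          · left
            apply Fin.ext
            show i.val = k
            omega
        · rintro (h2 | ⟨h2, h3⟩)
          · rw [h2]
            exact ⟨by simp, hx⟩
          · exact ⟨by omega, h3⟩
      rw [h1, Finset.card_insert_of_notMem (by simp)]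
      rw [Bool.xor_true]
      by_cases ho : Odd (univ.filter fun i : Fin n => i.val < k ∧ x i = true).card
      · have h2 : ¬ Odd ((univ.filter fun i : Fin n => i.val < k ∧ x i = true).card + 1) := by
          rw [Nat.odd_add_one]; tauto
        simp only [ho, h2, decide_true, decide_false, Bool.not_true]
      · have h2 : Odd ((univ.filter fun i : Fin n => i.val < k ∧ x i = true).card + 1) := by
          rw [Nat.odd_add_one]; exact ho
        simp only [ho, h2, decide_true, decide_false, Bool.not_false]

lemma pp_n {n : ℕ} (x : Fin n → Bool) :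
    pp x n = decide (Odd (univ.filter fun i => x i = true).card) := by
  rw [pp_eq x n le_rfl]
  congr 3
  ext i
  simp

/-- the literals of the formula which computes the parity -/
def lit {n : ℕ} (x : Fin n → Bool) :
    Fin n ⊕ (Fin n × Bool × Bool) ⊕ Bool → Fin 3 → (Fin n ⊕ Fin (n + 1)) × Bool
  | .inl i, _ => (.inl i, x i)
  | .inr (.inl (i, a, b)), p =>
    ![(.inl i, !a), (.inr i.castSucc, !b), (.inr i.succ, xor a b)] p
  | .inr (.inr false), _ => (.inr 0, false)
  | .inr (.inr true), _ => (.inr (Fin.last n), true)

lemma lit_fst {n : ℕ} (x x' : Fin n → Bool) (k : Fin n ⊕ (Fin n × Bool × Bool) ⊕ Bool)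
    (p : Fin 3) : (lit x k p).1 = (lit x' k p).1 := by
  rcases k with i | ⟨i, a, b⟩ | _ | _
  · rfl
  · rfl
  · rfl
  · rfl

lemma lit_sat {n : ℕ} (x : Fin n → Bool) :
    (∃ a : Fin n ⊕ Fin (n + 1) → Bool, ∀ k, ∃ p, a (lit x k p).1 = (lit x k p).2) ↔
      pp x n = true := by
  constructor
  · rintro ⟨a, ha⟩
    have h1 : ∀ i, a (Sum.inl i) = x i := by
      intro i
      obtain ⟨p, hp⟩ := ha (.inl i)
      exact hp
    have h2 : a (Sum.inr 0) = false := by
      obtain ⟨p, hp⟩ := ha (.inr (.inr false))
      exact hp
    have h3 : a (Sum.inr (Fin.last n)) = true := by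
      obtain ⟨p, hp⟩ := ha (.inr (.inr true))
      exact hp
    have h4 : ∀ i : Fin n, a (Sum.inr i.succ) = xor (a (Sum.inr i.castSucc)) (x i) := by
      intro i
      obtain ⟨p, hp⟩ := ha (.inr (.inl (i, x i, a (Sum.inr i.castSucc))))
      fin_cases p
      · have hp' : a (Sum.inl i) = !(x i) := hp
        rw [h1] at hp'
        simp at hp'
      · have hp' : a (Sum.inr i.castSucc) = !(a (Sum.inr i.castSucc)) := hp
        simp at hp'
      · have hp' : a (Sum.inr i.succ) = xor (x i) (a (Sum.inr i.castSucc)) := hp
        rw [hp', Bool.xor_comm]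
    have h5 : ∀ k : ℕ, (hk : k < n + 1) → a (Sum.inr ⟨k, hk⟩) = pp x k := by
      intro k
      induction k with
      | zero =>
        intro hk
        exact h2
      | succ k ih =>
        intro hk
        have h6 := h4 ⟨k, by omega⟩
        have h7 := ih (by omega)
        rw [pp, dif_pos (show k < n by omega), ← h7]
        exact h6
    rw [← h5 n (by omega)]
    exact h3
  · intro hp
    refine ⟨fun v => match v with
      | Sum.inl i => x i
      | Sum.inr k => pp x k.val, ?_⟩
    intro k
    rcases k with i | ⟨i, a, b⟩ | _ | _
    · exact ⟨0, rfl⟩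
    · by_cases h1 : x i = !a
      · exact ⟨0, h1⟩
      · by_cases h2 : pp x i.val = !b
        · exact ⟨1, h2⟩
        · refine ⟨2, ?_⟩
          show pp x (i.val + 1) = xor a b
          rw [pp, dif_pos i.isLt]
          have h3 : x i = a := by
            revert h1
            cases x i <;> cases a <;> simp
          have h4 : pp x i.val = b := by
            revert h2
            cases pp x i.val <;> cases b <;> simp
          rw [h4]
          show xor b (x i) = xor a b
          rw [h3, Bool.xor_comm]
    · exact ⟨0, rfl⟩
    · exact ⟨0, hp⟩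

/-- **Parity of `n` bits is a projection of 3-satisfiability with `5 n + 2` clauses and `2 n + 1`
variables.** -/
theorem parity_projects_sat3 {n : ℕ} (hn : 1 ≤ n) {l : ℕ} (dec : (Fin l → Bool) → Fin (2 * n + 1))
    (hdec : Function.Surjective dec) :
    ParityProjects n (sat3 (K := Fin (5 * n + 2)) dec) := by
  classical
  have e : Fin (5 * n + 2) ≃ Fin n ⊕ (Fin n × Bool × Bool) ⊕ Bool := by
    apply Fintype.equivOfCardEq
    simp only [Fintype.card_fin, Fintype.card_sum, Fintype.card_prod, Fintype.card_bool]
    ring
  have f : Fin (2 * n + 1) ≃ Fin n ⊕ Fin (n + 1) := by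
    apply Fintype.equivOfCardEq
    simp only [Fintype.card_fin, Fintype.card_sum]
    ring
  obtain ⟨enc, henc⟩ := hdec.hasRightInverse
  refine ⟨fun x j => match j with
    | (k, p, none) => (lit x (e k) p).2
    | (k, p, some t) => enc (f.symm (lit x (e k) p).1) t, ?_, ?_⟩
  · rintro ⟨k, p, t | t⟩
    · rcases hk : e k with i | ⟨i, a, b⟩ | _ | _
      · exact ⟨i, id, fun x => by simp only [hk]; rfl⟩
      · exact ⟨⟨0, hn⟩, fun _ => (lit (fun _ => false) (.inr (.inl (i, a, b))) p).2,
          fun x => by simp only [hk]; rfl⟩
      · exact ⟨⟨0, hn⟩, fun _ => false, fun x => by simp only [hk]; rfl⟩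
      · exact ⟨⟨0, hn⟩, fun _ => true, fun x => by simp only [hk]; rfl⟩
    · refine ⟨⟨0, hn⟩, fun _ => enc (f.symm (lit (fun _ => false) (e k) p).1) t, fun x => ?_⟩
      simp only
      rw [lit_fst x (fun _ => false)]
  · intro x
    rw [← pp_n x, Bool.eq_iff_iff, sat3_iff, ← lit_sat x]
    constructor
    · rintro ⟨a, ha⟩
      refine ⟨fun v => a (f.symm v), fun k => ?_⟩
      obtain ⟨p, hp⟩ := ha (e.symm k)
      refine ⟨p, ?_⟩
      simp only [Equiv.apply_symm_apply] at hp
      rw [← hp]
      have h1 : dec (enc (f.symm (lit x k p).1)) = f.symm (lit x k p).1 := henc _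
      show a (f.symm (lit x k p).1) = a (dec (enc (f.symm (lit x k p).1)))
      rw [h1]
    · rintro ⟨a, ha⟩
      refine ⟨fun v => a (f v), fun k => ?_⟩
      obtain ⟨p, hp⟩ := ha (e k)
      refine ⟨p, ?_⟩
      simp only
      rw [← hp]
      congr 1
      have h1 : dec (enc (f.symm (lit x (e k) p).1)) = f.symm (lit x (e k) p).1 := henc _
      rw [h1, Equiv.apply_symm_apply]

end Pool.Agent.H284.VX
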