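import Pool.Agent.Run7.h284.VX.Core
import Pool.Agent.Run7.h284.VX.Par
import Pool.Agent.Run7.h284.PS.Circ

/-!
# Reductions whose labels are circuits of bounded depth
-/

set_option autoImplicit false

namespace Pool.Agent.H284.VX

open Finset H568R2 DomAC0 Pool.Agent.H284.PS

/-- Every bit of every label is computed by a circuit with AND and OR gates of unbounded fan-in and
NOT gates, of depth at most `d` and with at most `2 ^ κ` gates. -/
def Reduction.BoundedDepth {J : Type} {Q B : ℕ} (T : Reduction J Q B) (d κ : ℕ) : Prop :=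
  ∀ ω q v b, ∃ C : Circuit J, C.size ≤ 2 ^ κ ∧ C.depth ≤ d ∧
    ∀ y, C.eval y = (T.inst ω q).label v b y

section
variable {I : Type} [Fintype I] [DecidableEq I]

/-- the first moment from the second moment -/
lemma Ex_le_of_sq {F : (I → Bool) → ℝ} {a : ℝ} (ha : 0 < a)
    (h : Ex uw (fun z => F z ^ 2) ≤ a ^ 2) : Ex uw F ≤ a := by
  have h1 : ∀ z, F z ≤ 1 / (2 * a) * (F z ^ 2) + a / 2 := by
    intro z
    have h2 : F z * (2 * a) ≤ F z ^ 2 + a ^ 2 := by nlinarith [sq_nonneg (F z - a)]
    have h3 : 1 / (2 * a) * (F z ^ 2) + a / 2 = (F z ^ 2 + a ^ 2) / (2 * a) := by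
      field_simp
    rw [h3, le_div_iff₀ (by positivity)]
    exact h2
  have h2 := Ex_mono uw_nonneg h1
  rw [Ex_add, Ex_smul, Ex_const uw_sum] at h2
  have h3 : 1 / (2 * a) * Ex uw (fun z => F z ^ 2) ≤ 1 / (2 * a) * a ^ 2 :=
    mul_le_mul_of_nonneg_left h (by positivity)
  have h4 : 1 / (2 * a) * a ^ 2 = a / 2 := by field_simp
  linarith

end

/-- **The bound for circuits of bounded depth.** -/
theorem bounded_depth {n d κ Q B : ℕ} {J : Type} {L : (J → Bool) → Bool} (T : Reduction J Q B)
    {c R : ℝ} (hc : 1 < c) (hR : 0 ≤ R) (hn : n ≤ 2 ^ κ) (hL : ParityProjects n L)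
    (hs : T.Solves c L) (hS : T.Spread R) (hC : T.BoundedDepth d κ) :
    n * Real.log c ≤ 3 * (Q * R * B * (72 * κ + 24 * d + 24 : ℝ) ^ (d + 1)) := by
  obtain ⟨σ, hσ, hp⟩ := hL
  have h1 := core T σ (A := (72 * κ + 24 * d + 24 : ℝ) ^ (d + 1)) hc hR (by positivity)
    (L := L) (by
      intro z i
      rw [hp, hp]
      exact parity_flip z i) hs hS (by
      intro ω q v b
      obtain ⟨C, hC1, hC2, hC3⟩ := hC ω q v b
      apply Ex_le_of_sq (by positivity)
      have h2 := circuit_moment C (I := Fin n) (σ := σ) hσ (d := d) (κ := κ)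
        (by rw [Fintype.card_fin]; exact hn) hC1 hC2
      have h3 : (fun x : Fin n → Bool => C.eval (σ x)) =
          fun z => (T.inst ω q).label v b (σ z) := by
        funext x
        exact hC3 (σ x)
      rw [h3] at h2
      rw [← pow_mul]
      have h4 : (d + 1) * 2 = 2 * d + 2 := by ring
      rw [h4]
      exact h2)
  rw [Fintype.card_fin] at h1
  exact h1

end Pool.Agent.H284.VX
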