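import Mathlib

/-!
# Rounding up to a random geometric progression
-/

set_option autoImplicit false

namespace Pool.Agent.H284.VX

open Finset

/-- the least integer `k` with `k M + j ≥ N` -/
def kk (M : ℕ) (N : ℤ) (j : ℕ) : ℤ := -(((j : ℤ) - N) / (M : ℤ))

lemma kk_mono (M : ℕ) {N N' : ℤ} (h : N ≤ N') (j : ℕ) : kk M N j ≤ kk M N' j := by
  unfold kk
  rcases Nat.eq_zero_or_pos M with h0 | h0
  · subst h0
    simp
  · have h1 : ((j : ℤ) - N') / (M : ℤ) ≤ ((j : ℤ) - N) / (M : ℤ) := by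
      apply Int.ediv_le_ediv (by exact_mod_cast h0)
      omega
    omega

lemma kk_sum_succ {M : ℕ} (hM : 0 < M) (N : ℤ) :
    ∑ j ∈ range M, kk M (N + 1) j = ∑ j ∈ range M, kk M N j + 1 := by
  obtain ⟨M', rfl⟩ : ∃ M', M = M' + 1 := ⟨M - 1, by omega⟩
  rw [Finset.sum_range_succ', Finset.sum_range_succ]
  have h1 : ∀ j ∈ range M', kk (M' + 1) (N + 1) (j + 1) = kk (M' + 1) N j := by
    intro j _
    unfold kk
    congr 2
    push_cast
    ring
  rw [Finset.sum_congr rfl h1]
  have h2 : kk (M' + 1) N M' = kk (M' + 1) (N + 1) 0 - 1 := by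
    unfold kk
    have h3 : ((M' : ℤ) - N) = (((0 : ℕ) : ℤ) - (N + 1)) + 1 * ((M' + 1 : ℕ) : ℤ) := by
      push_cast
      ring
    rw [h3, Int.add_mul_ediv_right _ _ (by positivity)]
    ring
  rw [h2]
  ring

lemma kk_sum_add {M : ℕ} (hM : 0 < M) (N : ℤ) (m : ℕ) :
    ∑ j ∈ range M, kk M (N + m) j = ∑ j ∈ range M, kk M N j + m := by
  induction m with
  | zero => simp
  | succ m ih =>
    have : N + ((m + 1 : ℕ) : ℤ) = (N + m) + 1 := by push_cast; ring
    rw [this, kk_sum_succ hM, ih]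
    push_cast
    ring

lemma kk_count_le {M : ℕ} (hM : 0 < M) {N N' : ℤ} (h : N ≤ N') :
    (((range M).filter fun j => kk M N j ≠ kk M N' j).card : ℤ) ≤ N' - N := by
  obtain ⟨m, hm⟩ := Int.eq_ofNat_of_zero_le (show 0 ≤ N' - N by omega)
  have hN : N' = N + m := by omega
  have h1 : (((range M).filter fun j => kk M N j ≠ kk M N' j).card : ℤ) ≤
      ∑ j ∈ range M, (kk M N' j - kk M N j) := by
    rw [Finset.card_filter]
    push_cast
    apply Finset.sum_le_sum
    intro j _
    have h2 := kk_mono M h j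
    split_ifs with h3
    · omega
    · omega
  rw [Finset.sum_sub_distrib] at h1
  have h2 := kk_sum_add hM N m
  rw [← hN] at h2
  omega

lemma kk_count {M : ℕ} (hM : 0 < M) (N N' : ℤ) :
    (((range M).filter fun j => kk M N j ≠ kk M N' j).card : ℤ) ≤ |N' - N| := by
  rcases le_total N N' with h | h
  · rw [abs_of_nonneg (by omega)]
    exact kk_count_le hM h
  · rw [abs_of_nonpos (by omega)]
    have h1 := kk_count_le hM h
    have h2 : (range M).filter (fun j => kk M N' j ≠ kk M N j) =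
        (range M).filter fun j => kk M N j ≠ kk M N' j := by
      apply Finset.filter_congr
      intro j _
      exact ne_comm
    rw [h2] at h1
    omega

/-- the logarithm of `t` with base `c` -/
noncomputable def lg (c t : ℝ) : ℝ := Real.log t / Real.log c

/-- the number of the grid point for `t` -/
noncomputable def gx (c : ℝ) (M j : ℕ) (t : ℝ) : ℤ := kk M ⌈(M : ℝ) * lg c t⌉ j

/-- round up to the next power `c ^ (k + j / M)` -/
noncomputable def rnd (c : ℝ) (M j : ℕ) (t : ℝ) : ℝ :=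
  if t ≤ 0 then t else Real.exp ((gx c M j t + (j : ℝ) / M) * Real.log c)

lemma rnd_bounds {c : ℝ} (hc : 1 < c) {M : ℕ} (hM : 0 < M) (j : ℕ) {t : ℝ} (ht : 0 ≤ t) :
    t ≤ rnd c M j t ∧ rnd c M j t ≤ c * t := by
  rcases eq_or_lt_of_le ht with h0 | h0
  · unfold rnd
    rw [if_pos h0.ge, ← h0]
    simp
  · have hlc : 0 < Real.log c := Real.log_pos hc
    have hM' : (0 : ℝ) < M := by exact_mod_cast hM
    have hMz : (0 : ℤ) < M := by exact_mod_cast hM
    unfold rnd
    rw [if_neg (not_le.2 h0)]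
    obtain ⟨l, hl⟩ : ∃ l, l = lg c t := ⟨_, rfl⟩
    obtain ⟨N, hN⟩ : ∃ N : ℤ, N = ⌈(M : ℝ) * l⌉ := ⟨_, rfl⟩
    obtain ⟨k, hk⟩ : ∃ k : ℤ, k = gx c M j t := ⟨_, rfl⟩
    have hk' : k = -(((j : ℤ) - N) / (M : ℤ)) := by rw [hk, hN, hl]; rfl
    have h1 : ((j : ℤ) - N) / (M : ℤ) * (M : ℤ) ≤ (j : ℤ) - N := Int.ediv_mul_le _ hMz.ne'
    have h2 : (j : ℤ) - N < (((j : ℤ) - N) / (M : ℤ) + 1) * (M : ℤ) :=
      Int.lt_ediv_add_one_mul_self _ hMz
    have h3 : (N : ℤ) - j ≤ k * M := by rw [hk']; linarith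
    have h4 : k * M + 1 ≤ (N : ℤ) - j + M := by
      rw [hk']
      have : (((j : ℤ) - N) / (M : ℤ) + 1) * (M : ℤ) =
        ((j : ℤ) - N) / (M : ℤ) * (M : ℤ) + M := by ring
      rw [this] at h2
      have h5 : -(((j : ℤ) - N) / (M : ℤ)) * M = -(((j : ℤ) - N) / (M : ℤ) * M) := by ring
      rw [h5]
      omega
    have h3r : (N : ℝ) - j ≤ k * M := by exact_mod_cast h3
    have h4r : (k : ℝ) * M + 1 ≤ N - j + M := by exact_mod_cast h4
    have h5 : (M : ℝ) * l ≤ N := by rw [hN]; exact Int.le_ceil _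
    have h6 : (N : ℝ) < M * l + 1 := by rw [hN]; exact Int.ceil_lt_add_one _
    have h7 : l ≤ k + (j : ℝ) / M := by
      have : l - k ≤ (j : ℝ) / M := by
        rw [le_div_iff₀ hM']
        nlinarith
      linarith
    have h8 : k + (j : ℝ) / M ≤ l + 1 := by
      have : (j : ℝ) / M ≤ l + 1 - k := by
        rw [div_le_iff₀ hM']
        nlinarith
      linarith
    have hlt : l * Real.log c = Real.log t := by
      rw [hl]
      unfold lg
      field_simp
    rw [← hk]
    constructor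
    · calc t = Real.exp (Real.log t) := (Real.exp_log h0).symm
        _ ≤ _ := by
          apply Real.exp_le_exp.2
          rw [← hlt]
          exact mul_le_mul_of_nonneg_right h7 hlc.le
    · calc Real.exp ((k + (j : ℝ) / M) * Real.log c) ≤ Real.exp ((l + 1) * Real.log c) := by
            apply Real.exp_le_exp.2
            exact mul_le_mul_of_nonneg_right h8 hlc.le
        _ = c * t := by
          rw [add_mul, one_mul, hlt, Real.exp_add, Real.exp_log h0,
            Real.exp_log (by linarith), mul_comm]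

lemma rnd_eq {c : ℝ} {M j : ℕ} {t t' : ℝ} (ht : 0 < t) (ht' : 0 < t')
    (h : gx c M j t = gx c M j t') : rnd c M j t = rnd c M j t' := by
  unfold rnd
  rw [if_neg (not_le.2 ht), if_neg (not_le.2 ht'), h]

/-- **For most shifts the rounded values of two near numbers are equal.** -/
lemma gx_count {M : ℕ} (hM : 0 < M) (c t t' : ℝ) :
    (((range M).filter fun j => gx c M j t ≠ gx c M j t').card : ℝ) ≤
      M * |lg c t' - lg c t| + 1 := by
  have h1 := kk_count hM ⌈(M : ℝ) * lg c t⌉ ⌈(M : ℝ) * lg c t'⌉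
  have h2 : (((range M).filter fun j => gx c M j t ≠ gx c M j t').card : ℝ) ≤
      |(⌈(M : ℝ) * lg c t'⌉ : ℝ) - ⌈(M : ℝ) * lg c t⌉| := by
    unfold gx
    exact_mod_cast h1
  refine h2.trans ?_
  have hM' : (0 : ℝ) < M := by exact_mod_cast hM
  have a1 := Int.le_ceil ((M : ℝ) * lg c t)
  have a2 := Int.ceil_lt_add_one ((M : ℝ) * lg c t)
  have a3 := Int.le_ceil ((M : ℝ) * lg c t')
  have a4 := Int.ceil_lt_add_one ((M : ℝ) * lg c t')
  have a5 : (M : ℝ) * |lg c t' - lg c t| = |M * lg c t' - M * lg c t| := by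
    rw [← mul_sub, abs_mul, abs_of_pos hM']
  rw [a5]
  rw [abs_le]
  have b1 := le_abs_self (M * lg c t' - M * lg c t)
  have b2 := neg_abs_le (M * lg c t' - M * lg c t)
  constructor <;> linarith

end Pool.Agent.H284.VX
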