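import Pool.Agent.Run7.h284.VX.Lip
import Pool.Agent.Run7.h284.VX.Grid
import Pool.Agent.Run7.h284.PS.Sens

/-!
# Reductions whose labels have small average sensitivity
-/

set_option autoImplicit false

namespace Pool.Agent.H284.VX

open Finset H568R2 Pool.Agent.H284.PS

lemma log_sub_le {a b m : ℝ} (hm : 0 < m) (ha : m ≤ a) (hb : m ≤ b) :
    |Real.log a - Real.log b| ≤ |a - b| / m := by
  have key : ∀ x y : ℝ, m ≤ x → m ≤ y → Real.log x - Real.log y ≤ |x - y| / m := by
    intro x y hx hy
    have hx0 : 0 < x := lt_of_lt_of_le hm hx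
    have hy0 : 0 < y := lt_of_lt_of_le hm hy
    have h1 : Real.log x - Real.log y ≤ (x - y) / y := by
      rw [← Real.log_div hx0.ne' hy0.ne']
      refine (Real.log_le_sub_one_of_pos (by positivity)).trans (le_of_eq ?_)
      field_simp
    refine h1.trans ?_
    calc (x - y) / y ≤ |x - y| / y := div_le_div_of_nonneg_right (le_abs_self _) hy0.le
      _ ≤ |x - y| / m := div_le_div_of_nonneg_left (abs_nonneg _) hm hy
  rw [abs_le]
  constructor
  · have := key b a hb ha
    rw [abs_sub_comm b a] at this
    linarith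
  · exact key a b ha hb

variable {I : Type} [Fintype I] [DecidableEq I] {J : Type} {Q B : ℕ}

/-- if the least weight is comparable with the capacity then its logarithm changes little -/
lemma lg_lip (F : Fam J B) {c R : ℝ} (hc : 1 < c) (hR : 0 ≤ R)
    (h : ∀ y, F.capacity ≤ R * F.val y) (hcap : 0 < F.capacity) (y y' : J → Bool) :
    |lg c (F.val y') - lg c (F.val y)| ≤ R / (F.capacity * Real.log c) * |F.val y' - F.val y| := by
  have hlc : 0 < Real.log c := Real.log_pos hc
  have hR0 : 0 < R := by
    rcases eq_or_lt_of_le hR with h0 | h0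
    · have := h y
      rw [← h0, zero_mul] at this
      linarith
    · exact h0
  have hm : ∀ z, F.capacity / R ≤ F.val z := by
    intro z
    rw [div_le_iff₀ hR0, mul_comm]
    exact h z
  have h1 := log_sub_le (show 0 < F.capacity / R by positivity) (hm y') (hm y)
  unfold lg
  rw [← sub_div, abs_div, abs_of_pos hlc, div_le_iff₀ hlc]
  refine h1.trans (le_of_eq ?_)
  field_simp

lemma val_eq_of_zero (F : Fam J B) {R : ℝ} (h : ∀ y, F.capacity ≤ R * F.val y) {y : J → Bool}
    (hy : F.val y ≤ 0) (y' : J → Bool) : F.val y' = F.val y := by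
  have h1 : F.val y = 0 := le_antisymm hy (F.val_nonneg y)
  have h2 : F.capacity ≤ 0 := by
    have := h y
    rw [h1, mul_zero] at this
    exact this
  rw [h1]
  exact le_antisymm ((F.val_le_capacity y').trans h2) (F.val_nonneg y')

/-- **Neighbouring inputs with different answers: the logarithms of the values differ.** -/
lemma third_le (T : Reduction J Q B) {c R : ℝ} (hc : 1 < c) {L : (J → Bool) → Bool}
    (hs : T.Solves c L) (hS : T.Spread R) {y y' : J → Bool} (hy : L y' ≠ L y) :
    1 / 3 ≤ ∑ ω, T.μ ω * ∑ q, |lg c ((T.inst ω q).val y') - lg c ((T.inst ω q).val y)| := by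
  classical
  obtain ⟨S, hSS⟩ : ∃ S, S = ∑ ω, T.μ ω *
    ∑ q, |lg c ((T.inst ω q).val y') - lg c ((T.inst ω q).val y)| := ⟨_, rfl⟩
  rw [← hSS]
  -- the inequality for a grid of size `M`
  have key : ∀ M : ℕ, 0 < M → (M : ℝ) / 3 ≤ M * S + Q := by
    intro M hM
    have hM' : (0 : ℝ) < M := by exact_mod_cast hM
    -- one shift
    have hj : ∀ j ∈ range M, (1 : ℝ) / 3 ≤ ∑ ω, T.μ ω *
        ∑ q, (if gx c M j ((T.inst ω q).val y) ≠ gx c M j ((T.inst ω q).val y')
          then (1 : ℝ) else 0) := by
      intro j _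
      have h1 := hs (rnd c M j) (fun t ht => rnd_bounds hc hM j ht) y
      have h2 := hs (rnd c M j) (fun t ht => rnd_bounds hc hM j ht) y'
      have h3 : ∀ ω, (if T.ev ω (fun q => rnd c M j ((T.inst ω q).val y)) = L y
            then T.μ ω else 0) +
          (if T.ev ω (fun q => rnd c M j ((T.inst ω q).val y')) = L y' then T.μ ω else 0) ≤
          T.μ ω + T.μ ω *
        ∑ q, (if gx c M j ((T.inst ω q).val y) ≠ gx c M j ((T.inst ω q).val y')
          then (1 : ℝ) else 0) := by
        intro ω
        have hμ := T.nonneg ω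
        by_cases hd : ∃ q, gx c M j ((T.inst ω q).val y) ≠ gx c M j ((T.inst ω q).val y')
        · obtain ⟨q, hq⟩ := hd
          have h4 : (1 : ℝ) ≤ ∑ q, (if gx c M j ((T.inst ω q).val y) ≠
              gx c M j ((T.inst ω q).val y') then (1 : ℝ) else 0) := by
            have h5 := Finset.single_le_sum (s := univ) (f := fun q =>
              (if gx c M j ((T.inst ω q).val y) ≠
              gx c M j ((T.inst ω q).val y') then (1 : ℝ) else 0))
              (fun q _ => by split_ifs <;> norm_num) (mem_univ q)
            simp only [hq, ne_eq, not_false_eq_true, if_true] at h5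
            exact h5
          have h6 : T.μ ω ≤ T.μ ω * ∑ q, (if gx c M j ((T.inst ω q).val y) ≠
              gx c M j ((T.inst ω q).val y') then (1 : ℝ) else 0) := by
            calc T.μ ω = T.μ ω * 1 := (mul_one _).symm
              _ ≤ _ := mul_le_mul_of_nonneg_left h4 hμ
          split_ifs <;> linarith
        · push Not at hd
          have h4 : (fun q => rnd c M j ((T.inst ω q).val y)) =
              fun q => rnd c M j ((T.inst ω q).val y') := by
            funext q
            by_cases ha : (T.inst ω q).val y ≤ 0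
            · rw [val_eq_of_zero _ (hS ω q) ha y']
            · by_cases hb : (T.inst ω q).val y' ≤ 0
              · rw [val_eq_of_zero _ (hS ω q) hb y]
              · exact rnd_eq (not_le.1 ha) (not_le.1 hb) (hd q)
          have h5 : 0 ≤ T.μ ω * ∑ q, (if gx c M j ((T.inst ω q).val y) ≠
              gx c M j ((T.inst ω q).val y') then (1 : ℝ) else 0) := by
            apply mul_nonneg hμ
            exact Finset.sum_nonneg fun q _ => by split_ifs <;> norm_num
          rw [h4]
          by_cases ha : T.ev ω (fun q => rnd c M j ((T.inst ω q).val y')) = L y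
          · have hb : T.ev ω (fun q => rnd c M j ((T.inst ω q).val y')) ≠ L y' := by
              rw [ha]
              exact hy.symm
            rw [if_pos ha, if_neg hb]
            linarith
          · rw [if_neg ha]
            split_ifs <;> linarith
      have h4 := Finset.sum_le_sum fun ω (_ : ω ∈ univ) => h3 ω
      rw [Finset.sum_add_distrib, Finset.sum_add_distrib, T.sum] at h4
      linarith
    have h1 := Finset.sum_le_sum hj
    rw [Finset.sum_const, Finset.card_range, nsmul_eq_mul] at h1
    have h2 : ∑ j ∈ range M, ∑ ω, T.μ ω *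
        ∑ q, (if gx c M j ((T.inst ω q).val y) ≠ gx c M j ((T.inst ω q).val y')
          then (1 : ℝ) else 0) = ∑ ω, T.μ ω * ∑ q, (((range M).filter fun j =>
            gx c M j ((T.inst ω q).val y) ≠ gx c M j ((T.inst ω q).val y')).card : ℝ) := by
      rw [Finset.sum_comm]
      apply Finset.sum_congr rfl
      intro ω _
      rw [← Finset.mul_sum]
      congr 1
      rw [Finset.sum_comm]
      apply Finset.sum_congr rfl
      intro q _
      rw [Finset.card_filter]
      push_cast
      rfl
    rw [h2] at h1
    have h3 : ∑ ω, T.μ ω * ∑ q, (((range M).filter fun j =>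
            gx c M j ((T.inst ω q).val y) ≠ gx c M j ((T.inst ω q).val y')).card : ℝ) ≤
        ∑ ω, T.μ ω * ∑ q, (M * |lg c ((T.inst ω q).val y') - lg c ((T.inst ω q).val y)| + 1) := by
      apply Finset.sum_le_sum
      intro ω _
      apply mul_le_mul_of_nonneg_left _ (T.nonneg ω)
      exact Finset.sum_le_sum fun q _ => gx_count hM c _ _
    have h4 : ∑ ω, T.μ ω * ∑ q, (M * |lg c ((T.inst ω q).val y') -
        lg c ((T.inst ω q).val y)| + 1) = M * S + Q := by
      have h5 : ∀ ω, T.μ ω * ∑ q, (M * |lg c ((T.inst ω q).val y') -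
        lg c ((T.inst ω q).val y)| + 1) = M * (T.μ ω *
          ∑ q, |lg c ((T.inst ω q).val y') - lg c ((T.inst ω q).val y)|) + T.μ ω * Q := by
        intro ω
        rw [Finset.sum_add_distrib, ← Finset.mul_sum]
        simp only [Finset.sum_const, Finset.card_univ, Fintype.card_fin, nsmul_eq_mul, mul_one]
        ring
      rw [Finset.sum_congr rfl fun ω _ => h5 ω, Finset.sum_add_distrib, ← Finset.mul_sum,
        ← Finset.sum_mul, T.sum, one_mul, hSS]
    rw [h4] at h3
    have h5 : (M : ℝ) * (1 / 3) = M / 3 := by ring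
    rw [h5] at h1
    exact h1.trans h3
  by_contra hcon
  push Not at hcon
  obtain ⟨M, hM⟩ := exists_nat_gt ((Q : ℝ) / (1 / 3 - S))
  have hpos : 0 < 1 / 3 - S := by linarith
  rw [div_lt_iff₀ hpos] at hM
  have hM0 : 0 < M := by
    rcases Nat.eq_zero_or_pos M with h0 | h0
    · subst h0
      have : (0 : ℝ) ≤ Q := Nat.cast_nonneg Q
      simp only [Nat.cast_zero, zero_mul] at hM
      linarith
    · exact h0
  have := key M hM0
  nlinarith

open Classical in
/-- the expected total change of the least weight -/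
lemma change_le (F : Fam J B) (σ : (I → Bool) → (J → Bool)) {A : ℝ}
    (hA : ∀ v b, Ex uw (fun z : I → Bool => (SS (fun z => F.label v b (σ z)) z : ℝ)) ≤ A) :
    Ex uw (fun z : I → Bool => ∑ i, |F.val (σ (PS.flip z i)) - F.val (σ z)|) ≤
      F.capacity * (B * A) := by
  have h1 : ∀ z : I → Bool, ∑ i, |F.val (σ (PS.flip z i)) - F.val (σ z)| ≤
      ∑ v, F.top v * ∑ b, (SS (fun z => F.label v b (σ z)) z : ℝ) := by
    intro z
    have h2 : ∀ i, |F.val (σ (PS.flip z i)) - F.val (σ z)| ≤ ∑ v, F.top v *
        ∑ b, (if F.label v b (σ (PS.flip z i)) ≠ F.label v b (σ z) then (1 : ℝ) else 0) := by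
      intro i
      refine (F.abs_lip (σ z) (σ (PS.flip z i))).trans ?_
      rw [Finset.sum_filter]
      apply Finset.sum_le_sum
      intro v _
      split_ifs with h
      · have h3 : ∃ b, F.label v b (σ (PS.flip z i)) ≠ F.label v b (σ z) := by
          by_contra hcon
          push Not at hcon
          apply h
          funext b
          exact hcon b
        obtain ⟨b, hb⟩ := h3
        have h4 : (1 : ℝ) ≤ ∑ b, (if F.label v b (σ (PS.flip z i)) ≠ F.label v b (σ z)
            then (1 : ℝ) else 0) := by
          have h5 := Finset.single_le_sum (s := univ) (f := fun b =>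
            (if F.label v b (σ (PS.flip z i)) ≠ F.label v b (σ z) then (1 : ℝ) else 0))
            (fun b _ => by split_ifs <;> norm_num) (mem_univ b)
          simp only [hb, ne_eq, not_false_eq_true, if_true] at h5
          exact h5
        calc F.top v = F.top v * 1 := (mul_one _).symm
          _ ≤ _ := mul_le_mul_of_nonneg_left h4 (F.top_nonneg v)
      · apply mul_nonneg (F.top_nonneg v)
        exact Finset.sum_nonneg fun b _ => by split_ifs <;> norm_num
    refine (Finset.sum_le_sum fun i _ => h2 i).trans (le_of_eq ?_)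
    rw [Finset.sum_comm]
    apply Finset.sum_congr rfl
    intro v _
    rw [← Finset.mul_sum]
    congr 1
    rw [Finset.sum_comm]
    apply Finset.sum_congr rfl
    intro b _
    unfold SS
    rw [Finset.card_filter]
    push_cast
    rfl
  refine (Ex_mono uw_nonneg h1).trans ?_
  rw [Ex_sum]
  have h2 : ∀ v ∈ (univ : Finset F.V), Ex uw (fun z : I → Bool => F.top v *
      ∑ b, (SS (fun z => F.label v b (σ z)) z : ℝ)) ≤ F.top v * (B * A) := by
    intro v _
    rw [Ex_smul, Ex_sum]
    apply mul_le_mul_of_nonneg_left _ (F.top_nonneg v)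
    refine (Finset.sum_le_sum fun b _ => hA v b).trans (le_of_eq ?_)
    rw [Finset.sum_const, Finset.card_univ, Fintype.card_fin, nsmul_eq_mul]
  refine (Finset.sum_le_sum h2).trans (le_of_eq ?_)
  rw [← Finset.sum_mul]
  rfl

/-- **Reductions whose labels have average sensitivity at most `A`.** -/
theorem core (T : Reduction J Q B) (σ : (I → Bool) → (J → Bool)) {c R A : ℝ} (hc : 1 < c)
    (hR : 0 ≤ R) (hA0 : 0 ≤ A) {L : (J → Bool) → Bool} (hL : ∀ z i, L (σ (PS.flip z i)) ≠ L (σ z))
    (hs : T.Solves c L) (hS : T.Spread R)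
    (hA : ∀ ω q v b, Ex uw (fun z : I → Bool =>
      (SS (fun z => (T.inst ω q).label v b (σ z)) z : ℝ)) ≤ A) :
    Fintype.card I * Real.log c ≤ 3 * (Q * R * B * A) := by
  classical
  have hlc : 0 < Real.log c := Real.log_pos hc
  have h1 : (Fintype.card I : ℝ) / 3 ≤ Ex uw (fun z : I → Bool => ∑ i, ∑ ω, T.μ ω *
      ∑ q, |lg c ((T.inst ω q).val (σ (PS.flip z i))) - lg c ((T.inst ω q).val (σ z))|) := by
    rw [← Ex_const (I := I) uw_sum ((Fintype.card I : ℝ) / 3)]
    apply Ex_mono uw_nonneg
    intro z
    have h2 := Finset.sum_le_sum fun i (_ : i ∈ (univ : Finset I)) =>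
      third_le T hc hs hS (hL z i)
    rw [Finset.sum_const, Finset.card_univ, nsmul_eq_mul] at h2
    linarith
  have h2 : ∀ z : I → Bool, ∑ i, ∑ ω, T.μ ω *
      ∑ q, |lg c ((T.inst ω q).val (σ (PS.flip z i))) - lg c ((T.inst ω q).val (σ z))| =
      ∑ ω, T.μ ω * ∑ q, ∑ i,
        |lg c ((T.inst ω q).val (σ (PS.flip z i))) - lg c ((T.inst ω q).val (σ z))| := by
    intro z
    rw [Finset.sum_comm]
    apply Finset.sum_congr rfl
    intro ω _
    rw [← Finset.mul_sum]
    congr 1
    rw [Finset.sum_comm]
  rw [funext h2, Ex_sum] at h1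
  have h3 : ∀ ω ∈ (univ : Finset T.Ω), Ex uw (fun z : I → Bool => T.μ ω * ∑ q, ∑ i,
        |lg c ((T.inst ω q).val (σ (PS.flip z i))) - lg c ((T.inst ω q).val (σ z))|) ≤
      T.μ ω * (Q * (R / Real.log c * (B * A))) := by
    intro ω _
    rw [Ex_smul, Ex_sum]
    apply mul_le_mul_of_nonneg_left _ (T.nonneg ω)
    have h4 : ∀ q ∈ (univ : Finset (Fin Q)), Ex uw (fun z : I → Bool => ∑ i,
        |lg c ((T.inst ω q).val (σ (PS.flip z i))) - lg c ((T.inst ω q).val (σ z))|) ≤
        R / Real.log c * (B * A) := by
      intro q _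
      obtain ⟨F, hF⟩ : ∃ F, F = T.inst ω q := ⟨_, rfl⟩
      have hSF : ∀ y, F.capacity ≤ R * F.val y := by rw [hF]; exact hS ω q
      have hAF : ∀ v b, Ex uw (fun z : I → Bool =>
          (SS (fun z => F.label v b (σ z)) z : ℝ)) ≤ A := by
        rw [hF]; exact hA ω q
      rw [← hF]
      rcases eq_or_lt_of_le F.capacity_nonneg with h0 | h0
      · have h5 : ∀ z : I → Bool, ∑ i, |lg c (F.val (σ (PS.flip z i))) - lg c (F.val (σ z))| = 0 := by
          intro z
          apply Finset.sum_eq_zero
          intro i _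
          have h6 : F.val (σ z) ≤ 0 := (F.val_le_capacity _).trans h0.ge
          rw [val_eq_of_zero F hSF h6 (σ (PS.flip z i)), sub_self, abs_zero]
        rw [funext h5, Ex_const uw_sum]
        positivity
      · have h5 : ∀ z : I → Bool, ∑ i, |lg c (F.val (σ (PS.flip z i))) - lg c (F.val (σ z))| ≤
            R / (F.capacity * Real.log c) * ∑ i, |F.val (σ (PS.flip z i)) - F.val (σ z)| := by
          intro z
          rw [Finset.mul_sum]
          exact Finset.sum_le_sum fun i _ => lg_lip F hc hR hSF h0 _ _
        refine (Ex_mono uw_nonneg h5).trans ?_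
        rw [Ex_smul]
        refine (mul_le_mul_of_nonneg_left (change_le F σ hAF) (by positivity)).trans
          (le_of_eq ?_)
        field_simp
    refine (Finset.sum_le_sum h4).trans (le_of_eq ?_)
    rw [Finset.sum_const, Finset.card_univ, Fintype.card_fin, nsmul_eq_mul]
  have h4 := h1.trans (Finset.sum_le_sum h3)
  rw [← Finset.sum_mul, T.sum, one_mul] at h4
  have h5 : (Q : ℝ) * (R / Real.log c * (B * A)) = (Q * R * B * A) / Real.log c := by
    field_simp
  rw [h5, le_div_iff₀ hlc] at h4
  linarith

end Pool.Agent.H284.VX
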