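import Mathlib

/-!
# Weighted vertex cover: labelled families of instances and truth-table reductions
-/

set_option autoImplicit false

namespace Pool.Agent.H284.VX

open Finset

/-- `C` is a vertex cover of the graph `G`. -/
def IsCover {V : Type} (G : SimpleGraph V) (C : Finset V) : Prop :=
  ∀ u v, G.Adj u v → u ∈ C ∨ v ∈ C

open Classical in
/-- `OPT(G, w)`, the least weight of a vertex cover. -/
noncomputable def opt {V : Type} [Fintype V] (G : SimpleGraph V) (w : V → ℝ) : ℝ :=
  (univ.filter fun C : Finset V => IsCover G C).inf'
    ⟨univ, Finset.mem_filter.2 ⟨mem_univ _, fun u _ _ => Or.inl (mem_univ u)⟩⟩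
    fun C => ∑ v ∈ C, w v

/-- A weighted graph for every input `y : J → Bool`, with a fixed finite set `V` of vertices of any
size. Every vertex `v` has a label of `B` bits, which are arbitrary functions `label v b` of the
input. Whether two vertices are adjacent is an arbitrary function `adj` of the two vertices and of
their labels, and the weight of a vertex is an arbitrary nonnegative function `wt` of the vertex and
of its label. -/
structure Fam (J : Type) (B : ℕ) where
  V : Type
  fin : Fintype V
  label : V → Fin B → (J → Bool) → Bool
  adj : V → V → (Fin B → Bool) → (Fin B → Bool) → Prop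
  wt : V → (Fin B → Bool) → ℝ
  nonneg : ∀ v l, 0 ≤ wt v l

attribute [instance] Fam.fin

namespace Fam

variable {J : Type} {B : ℕ} (F : Fam J B)

/-- the label of the vertex `v` on the input `y` -/
def lab (y : J → Bool) (v : F.V) : Fin B → Bool := fun b => F.label v b y

/-- the graph on the input `y` -/
def graph (y : J → Bool) : SimpleGraph F.V :=
  SimpleGraph.fromRel fun u v => F.adj u v (F.lab y u) (F.lab y v)

/-- the weights on the input `y` -/
def weight (y : J → Bool) (v : F.V) : ℝ := F.wt v (F.lab y v)

/-- the least weight of a vertex cover on the input `y` -/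
noncomputable def val (y : J → Bool) : ℝ := opt (F.graph y) (F.weight y)

/-- the greatest possible weight of the vertex `v` -/
noncomputable def top (v : F.V) : ℝ := univ.sup' univ_nonempty (F.wt v)

/-- the sum of the greatest possible weights of the vertices -/
noncomputable def capacity : ℝ := ∑ v, F.top v

end Fam

/-- A randomised truth-table reduction with `Q` questions, for inputs `y : J → Bool`: for every
outcome `ω` of the random experiment with the probabilities `μ` it produces `Q` instances of weighted
vertex cover with labels of `B` bits, and an arbitrary function `ev ω` evaluates the `Q` answers, which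
are real numbers. -/
structure Reduction (J : Type) (Q B : ℕ) where
  Ω : Type
  fin : Fintype Ω
  μ : Ω → ℝ
  nonneg : ∀ ω, 0 ≤ μ ω
  sum : ∑ ω, μ ω = 1
  inst : Ω → Fin Q → Fam J B
  ev : Ω → (Fin Q → ℝ) → Bool

attribute [instance] Reduction.fin

open Classical in
/-- The reduction solves the problem `L` with the help of `c`-approximations of the least weight of a
vertex cover: if every instance with the least weight `t` is answered by a number `φ t` between `t`
and `c t`, then on every input the result is correct with probability at least `2 / 3`. -/
def Reduction.Solves {J : Type} {Q B : ℕ} (T : Reduction J Q B) (c : ℝ) (L : (J → Bool) → Bool) :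
    Prop :=
  ∀ φ : ℝ → ℝ, (∀ t, 0 ≤ t → t ≤ φ t ∧ φ t ≤ c * t) → ∀ y : J → Bool,
    2 / 3 ≤ ∑ ω, if T.ev ω (fun q => φ ((T.inst ω q).val y)) = L y then T.μ ω else 0

/-- The least weight of a vertex cover is always at least the capacity divided by `R`. -/
def Reduction.Spread {J : Type} {Q B : ℕ} (T : Reduction J Q B) (R : ℝ) : Prop :=
  ∀ ω q y, (T.inst ω q).capacity ≤ R * (T.inst ω q).val y

/-- Parity of `n` bits is a projection of `L`: the bits of the input `σ x` of `L` are functions of
single bits of `x`, and the answer is the parity of the number of ones of `x`. -/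
def ParityProjects {J : Type} (n : ℕ) (L : (J → Bool) → Bool) : Prop :=
  ∃ σ : (Fin n → Bool) → (J → Bool),
    (∀ j, ∃ (i : Fin n) (b : Bool → Bool), ∀ x, σ x j = b (x i)) ∧
    ∀ x, L (σ x) = decide (Odd (univ.filter fun i => x i = true).card)

end Pool.Agent.H284.VX
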