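import Pool.Agent.Run7.h284.VX.Lip
import Pool.Agent.Run7.h284.VX.Bd

/-!
# The classical reduction from 3-satisfiability to vertex cover
-/

set_option autoImplicit false

namespace Pool.Agent.H284.VX

open Finset DomAC0

variable {K X : Type} [Fintype K] {l : ℕ}

/-- the code of the variable -/
def cv (a : Fin (l + 1) → Bool) : Fin l → Bool := fun t => a t.castSucc

/-- The graph of the literals of all clauses: the literals of the same clause are adjacent, and so
are opposite literals. All weights are one. -/
def karp (K : Type) [Fintype K] (dec : (Fin l → Bool) → X) :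
    Fam (K × Fin 3 × Option (Fin l)) (l + 1) where
  V := K × Fin 3
  fin := inferInstance
  label v b y := Fin.lastCases (motive := fun _ => Bool) (y (v.1, v.2, none))
    (fun t => y (v.1, v.2, some t)) b
  adj u v a b := u.1 = v.1 ∨ (dec (cv a) = dec (cv b) ∧ a (Fin.last l) ≠ b (Fin.last l))
  wt _ _ := 1
  nonneg _ _ := zero_le_one

variable (dec : (Fin l → Bool) → X)

/-- the graph of the literals -/
def kg (y : K × Fin 3 × Option (Fin l) → Bool) : SimpleGraph (K × Fin 3) :=
  SimpleGraph.fromRel fun u v => u.1 = v.1 ∨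
    (dec (fun t => y (u.1, u.2, some t)) = dec (fun t => y (v.1, v.2, some t)) ∧
      y (u.1, u.2, none) ≠ y (v.1, v.2, none))

omit [Fintype K] in
lemma karp_adj (y : K × Fin 3 × Option (Fin l) → Bool) (u v : K × Fin 3) :
    (kg dec y).Adj u v ↔ u ≠ v ∧ (u.1 = v.1 ∨
      (dec (fun t => y (u.1, u.2, some t)) = dec (fun t => y (v.1, v.2, some t)) ∧
        y (u.1, u.2, none) ≠ y (v.1, v.2, none))) := by
  unfold kg
  rw [SimpleGraph.fromRel_adj]
  constructor
  · rintro ⟨h3, (h4 | ⟨h4, h5⟩) | (h4 | ⟨h4, h5⟩)⟩
    · exact ⟨h3, Or.inl h4⟩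
    · exact ⟨h3, Or.inr ⟨h4, h5⟩⟩
    · exact ⟨h3, Or.inl h4.symm⟩
    · exact ⟨h3, Or.inr ⟨h4.symm, h5.symm⟩⟩
  · rintro ⟨h3, h4⟩
    exact ⟨h3, Or.inl h4⟩

lemma karp_val (y : K × Fin 3 × Option (Fin l) → Bool) :
    (karp K dec).val y = opt (kg dec y) (fun _ => 1) := by
  have h1 : ∀ w : K × Fin 3, cv ((karp K dec).lab y w) = fun t => y (w.1, w.2, some t) := by
    intro w
    funext t
    show Fin.lastCases (motive := fun _ => Bool) (y (w.1, w.2, none))
      (fun t => y (w.1, w.2, some t)) t.castSucc = _
    rw [Fin.lastCases_castSucc]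
  have h2 : ∀ w : K × Fin 3, (karp K dec).lab y w (Fin.last l) = y (w.1, w.2, none) := by
    intro w
    show Fin.lastCases (motive := fun _ => Bool) (y (w.1, w.2, none))
      (fun t => y (w.1, w.2, some t)) (Fin.last l) = _
    rw [Fin.lastCases_last]
  show opt (V := K × Fin 3) (SimpleGraph.fromRel fun u v : K × Fin 3 => u.1 = v.1 ∨
    (dec (cv ((karp K dec).lab y u)) = dec (cv ((karp K dec).lab y v)) ∧
      (karp K dec).lab y u (Fin.last l) ≠ (karp K dec).lab y v (Fin.last l))) (fun _ => 1) = _
  simp only [h1, h2]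
  rfl

omit [Fintype K] in
lemma karp_weight (C : Finset (K × Fin 3)) : ∑ _v ∈ C, (1 : ℝ) = (C.card : ℝ) := by
  rw [Finset.sum_const, nsmul_eq_mul, mul_one]

omit [Fintype K] in
/-- a cover contains all but at most one literal of each clause -/
lemma karp_unique {y : K × Fin 3 × Option (Fin l) → Bool} {C : Finset (K × Fin 3)}
    (hC : IsCover (kg dec y) C) {k : K} {p p' : Fin 3} (h : (k, p) ∉ C)
    (h' : (k, p') ∉ C) : p = p' := by
  by_contra hne
  have h1 : (kg dec y).Adj (k, p) (k, p') := by
    rw [karp_adj]
    refine ⟨?_, Or.inl rfl⟩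
    intro h2
    exact hne (Prod.mk.inj h2).2
  rcases hC _ _ h1 with h2 | h2
  · exact h h2
  · exact h' h2

open Classical in
lemma card_compl (C : Finset (K × Fin 3)) :
    (C.card : ℝ) = 3 * Fintype.card K - (univ \ C).card := by
  have h1 : (univ \ C).card + C.card = Fintype.card (K × Fin 3) := by
    rw [Finset.card_sdiff_add_card_eq_card (Finset.subset_univ C), Finset.card_univ]
  rw [Fintype.card_prod, Fintype.card_fin] at h1
  have h2 : ((univ \ C).card : ℝ) + C.card = Fintype.card K * 3 := by exact_mod_cast h1
  linarith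

open Classical in
/-- at most one literal of each clause is missing -/
lemma karp_card {y : K × Fin 3 × Option (Fin l) → Bool} {C : Finset (K × Fin 3)}
    (hC : IsCover (kg dec y) C) : (univ \ C).card ≤ Fintype.card K := by
  rw [← Finset.card_univ]
  apply Finset.card_le_card_of_injOn (fun v => v.1) (fun v _ => mem_univ _)
  intro u hu v hv huv
  have hu' : u ∉ C := (Finset.mem_sdiff.1 (Finset.mem_coe.1 hu)).2
  have hv' : v ∉ C := (Finset.mem_sdiff.1 (Finset.mem_coe.1 hv)).2
  obtain ⟨k, p⟩ := u
  obtain ⟨k', p'⟩ := v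
  have h1 : k = k' := huv
  subst h1
  rw [karp_unique dec hC hu' hv']

lemma karp_val_ge (y : K × Fin 3 × Option (Fin l) → Bool) :
    2 * (Fintype.card K : ℝ) ≤ (karp K dec).val y := by
  classical
  obtain ⟨C, hC, h⟩ := exists_opt (kg dec y) (fun _ => 1)
  have h1 := karp_card dec hC
  have h2 := card_compl C
  have h3 : (karp K dec).val y = (C.card : ℝ) := by
    rw [karp_val, ← karp_weight C]
    exact h
  have h4 : ((univ \ C).card : ℝ) ≤ Fintype.card K := by exact_mod_cast h1
  rw [h3]
  linarith

/-- satisfiable formulas have small covers -/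
lemma karp_sat {y : K × Fin 3 × Option (Fin l) → Bool} (h : sat3 dec y = true) :
    (karp K dec).val y ≤ 2 * Fintype.card K := by
  classical
  rw [sat3_iff] at h
  obtain ⟨a, ha⟩ := h
  choose p hp using ha
  obtain ⟨C, hC⟩ : ∃ C : Finset (K × Fin 3), C = univ.filter fun v => v.2 ≠ p v.1 := ⟨_, rfl⟩
  have hcov : IsCover (kg dec y) C := by
    intro u v huv
    by_contra hcon
    push Not at hcon
    obtain ⟨h1, h2⟩ := hcon
    have h3 : ∀ w : K × Fin 3, w ∉ C → w.2 = p w.1 := by
      intro w hw
      by_contra h4
      exact hw (by rw [hC]; exact Finset.mem_filter.2 ⟨mem_univ _, h4⟩)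
    have h4 := h3 u h1
    have h5 := h3 v h2
    rw [karp_adj] at huv
    obtain ⟨h6, h7 | ⟨h7, h8⟩⟩ := huv
    · apply h6
      apply Prod.ext h7
      rw [h4, h5, h7]
    · have h9 := hp u.1
      have h10 := hp v.1
      rw [← h4] at h9
      rw [← h5] at h10
      apply h8
      rw [← h9, ← h10, h7]
  have h1 := opt_le _ (fun _ => (1 : ℝ)) hcov
  rw [karp_weight] at h1
  have h2 : Fintype.card K ≤ (univ \ C).card := by
    rw [← Finset.card_univ]
    apply Finset.card_le_card_of_injOn (fun k => (k, p k))
    · intro k _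
      apply Finset.mem_coe.2
      rw [Finset.mem_sdiff, hC]
      exact ⟨mem_univ _, by simp⟩
    · intro k _ k' _ hkk
      exact (Prod.mk.inj hkk).1
  have h3 := card_compl C
  have h4 : (Fintype.card K : ℝ) ≤ ((univ \ C).card : ℝ) := by exact_mod_cast h2
  have h5 : (karp K dec).val y ≤ (C.card : ℝ) := by
    rw [karp_val]
    exact h1
  linarith

/-- formulas with small covers are satisfiable -/
lemma karp_unsat {y : K × Fin 3 × Option (Fin l) → Bool}
    (h : (karp K dec).val y < 2 * Fintype.card K + 1) : sat3 dec y = true := by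
  classical
  obtain ⟨C, hC, hCe⟩ := exists_opt (kg dec y) (fun _ => 1)
  have h3 : (karp K dec).val y = (C.card : ℝ) := by
    rw [karp_val, ← karp_weight C]
    exact hCe
  rw [h3, card_compl C] at h
  have h4 : Fintype.card K ≤ (univ \ C).card := by
    have : (Fintype.card K : ℝ) - 1 < ((univ \ C).card : ℝ) := by linarith
    have h5 : (Fintype.card K : ℝ) < ((univ \ C).card : ℝ) + 1 := by linarith
    have h6 : Fintype.card K < (univ \ C).card + 1 := by exact_mod_cast h5
    omega
  -- every clause has a missing literal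
  have h5 : ∀ k : K, ∃ p : Fin 3, (k, p) ∉ C := by
    by_contra hcon
    push Not at hcon
    obtain ⟨k, hk⟩ := hcon
    have h6 : (univ \ C).card ≤ (univ.erase k).card := by
      apply Finset.card_le_card_of_injOn (fun v => v.1)
      · intro v hv
        have hv' : v ∉ C := (Finset.mem_sdiff.1 (Finset.mem_coe.1 hv)).2
        apply Finset.mem_coe.2
        rw [Finset.mem_erase]
        refine ⟨?_, mem_univ _⟩
        intro h7
        apply hv'
        have h8 := hk v.2
        rw [← h7] at h8
        exact h8
      · intro u hu v hv huv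
        have hu' : u ∉ C := (Finset.mem_sdiff.1 (Finset.mem_coe.1 hu)).2
        have hv' : v ∉ C := (Finset.mem_sdiff.1 (Finset.mem_coe.1 hv)).2
        obtain ⟨k1, p1⟩ := u
        obtain ⟨k2, p2⟩ := v
        have h1 : k1 = k2 := huv
        subst h1
        rw [karp_unique dec hC hu' hv']
    have h7 : (univ.erase k).card < (univ : Finset K).card :=
      Finset.card_lt_card (Finset.erase_ssubset (mem_univ k))
    rw [Finset.card_univ] at h7
    omega
  choose p hp using h5
  rw [sat3_iff]
  refine ⟨fun x => decide (∃ k, dec (fun t => y (k, p k, some t)) = x ∧ y (k, p k, none) = true),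
    fun k => ⟨p k, ?_⟩⟩
  rcases hy : y (k, p k, none) with _ | _
  · rw [decide_eq_false_iff_not]
    rintro ⟨k', h6, h7⟩
    have hkk : k' ≠ k := by
      rintro rfl
      rw [hy] at h7
      exact absurd h7 (by simp)
    have h8 : (kg dec y).Adj (k', p k') (k, p k) := by
      rw [karp_adj]
      refine ⟨fun h9 => hkk (Prod.mk.inj h9).1, Or.inr ⟨h6, ?_⟩⟩
      show y (k', p k', none) ≠ y (k, p k, none)
      rw [h7, hy]
      simp
    rcases hC _ _ h8 with h9 | h9
    · exact hp k' h9
    · exact hp k h9
  · rw [decide_eq_true_iff]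
    exact ⟨k, rfl, hy⟩

/-- the circuit without gates which reads one bit -/
def wire {J : Type} (j : J) : Circuit J where
  size := 0
  kind g := g.elim0
  preds g := g.elim0
  acyclic g := g.elim0
  unary g := g.elim0
  output := Sum.inl j

open Classical in
/-- the classical reduction -/
noncomputable def karpRed (K : Type) [Fintype K] (dec : (Fin l → Bool) → X) :
    Reduction (K × Fin 3 × Option (Fin l)) 1 (l + 1) where
  Ω := Unit
  fin := inferInstance
  μ _ := 1
  nonneg _ := zero_le_one
  sum := by simp
  inst _ _ := karp K dec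
  ev _ r := decide (r 0 < 2 * Fintype.card K + 1)

/-- **The classical reduction belongs to our class, and it works for ratios `1 + O(1 / m)`.** -/
theorem karp_works (dec : (Fin l → Bool) → X) {c : ℝ}
    (hc : c * (2 * Fintype.card K) < 2 * Fintype.card K + 1) :
    (karpRed K dec).Solves c (sat3 dec) ∧ (karpRed K dec).Spread (3 / 2) ∧
      (karpRed K dec).BoundedDepth 0 0 := by
  classical
  refine ⟨?_, ?_, ?_⟩
  · intro φ hφ y
    have h0 : (0 : ℝ) ≤ (karp K dec).val y := (karp K dec).val_nonneg y
    obtain ⟨h1, h2⟩ := hφ _ h0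
    have h3 : (karpRed K dec).ev () (fun _ => φ ((karp K dec).val y)) = sat3 dec y := by
      show decide (φ ((karp K dec).val y) < 2 * (Fintype.card K : ℝ) + 1) = sat3 dec y
      rcases hs : sat3 dec y with _ | _
      · rw [decide_eq_false_iff_not]
        intro h4
        have h5 := karp_unsat dec (lt_of_le_of_lt h1 h4)
        rw [hs] at h5
        exact absurd h5 (by simp)
      · rw [decide_eq_true_iff]
        have h4 := karp_sat dec hs
        have h5 := karp_val_ge dec y
        have h6 : (karp K dec).val y = 2 * (Fintype.card K : ℝ) := le_antisymm h4 h5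
        rw [h6] at h2 ⊢
        linarith
    have h4 : ∑ ω : (karpRed K dec).Ω, (if (karpRed K dec).ev ω
        (fun q => φ (((karpRed K dec).inst ω q).val y)) = sat3 dec y
          then (karpRed K dec).μ ω else 0) = 1 := by
      show ∑ ω : Unit, (if (karpRed K dec).ev ω
        (fun q => φ (((karpRed K dec).inst ω q).val y)) = sat3 dec y then (1 : ℝ) else 0) = 1
      rw [Finset.univ_unique, Finset.sum_singleton, if_pos]
      exact h3
    rw [h4]
    norm_num
  · intro ω q y
    show (karp K dec).capacity ≤ 3 / 2 * (karp K dec).val y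
    have h1 := karp_val_ge dec y
    have h2 : (karp K dec).capacity = 3 * Fintype.card K := by
      have h3 : ∀ v : (karp K dec).V, (karp K dec).top v = 1 := by
        intro v
        unfold Fam.top
        exact Finset.sup'_const _ 1
      unfold Fam.capacity
      rw [Finset.sum_congr rfl fun v _ => h3 v, Finset.sum_const, nsmul_eq_mul, mul_one,
        Finset.card_univ]
      have h4 : Fintype.card (karp K dec).V = Fintype.card (K × Fin 3) := rfl
      rw [h4, Fintype.card_prod, Fintype.card_fin]
      push_cast
      ring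
    rw [h2]
    linarith
  · intro ω q v b
    have key : ∃ j : K × Fin 3 × Option (Fin l), ∀ y : K × Fin 3 × Option (Fin l) → Bool,
        y j = (karp K dec).label v b y := by
      induction b using Fin.lastCases with
      | last =>
        refine ⟨(v.1, v.2, none), fun y => ?_⟩
        show _ = Fin.lastCases (motive := fun _ => Bool) (y (v.1, v.2, none))
          (fun t => y (v.1, v.2, some t)) (Fin.last l)
        rw [Fin.lastCases_last]
      | cast t =>
        refine ⟨(v.1, v.2, some t), fun y => ?_⟩
        show _ = Fin.lastCases (motive := fun _ => Bool) (y (v.1, v.2, none))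
          (fun t => y (v.1, v.2, some t)) t.castSucc
        rw [Fin.lastCases_castSucc]
    obtain ⟨j, hj⟩ := key
    refine ⟨wire j, Nat.zero_le _, ?_, fun y => ?_⟩
    · show (wire j).nodeDepth (Sum.inl j) ≤ 0
      unfold Circuit.nodeDepth
      exact le_rfl
    · show (wire j).nodeVal y (Sum.inl j) = _
      unfold Circuit.nodeVal
      exact hj y

end Pool.Agent.H284.VX
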