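import Pool.Agent.Run7.h284.VX.Defs

/-!
# The least weight of a vertex cover changes little if few labels change
-/

set_option autoImplicit false

namespace Pool.Agent.H284.VX

open Finset

section
variable {V : Type} [Fintype V]

lemma opt_le (G : SimpleGraph V) (w : V → ℝ) {C : Finset V} (hC : IsCover G C) :
    opt G w ≤ ∑ v ∈ C, w v := by
  classical
  unfold opt
  exact Finset.inf'_le _ (Finset.mem_filter.2 ⟨mem_univ _, hC⟩)

lemma exists_opt (G : SimpleGraph V) (w : V → ℝ) :
    ∃ C : Finset V, IsCover G C ∧ opt G w = ∑ v ∈ C, w v := by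
  classical
  unfold opt
  obtain ⟨C, hC, h⟩ := Finset.exists_mem_eq_inf' (s := univ.filter fun C : Finset V => IsCover G C)
    ⟨univ, Finset.mem_filter.2 ⟨mem_univ _, fun u _ _ => Or.inl (mem_univ u)⟩⟩
    (fun C => ∑ v ∈ C, w v)
  exact ⟨C, (Finset.mem_filter.1 hC).2, h⟩

end

namespace Fam

variable {J : Type} {B : ℕ} (F : Fam J B)

lemma wt_le_top (v : F.V) (l : Fin B → Bool) : F.wt v l ≤ F.top v :=
  Finset.le_sup' (F.wt v) (mem_univ l)

lemma top_nonneg (v : F.V) : 0 ≤ F.top v :=
  (F.nonneg v (fun _ => false)).trans (F.wt_le_top v _)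

lemma capacity_nonneg : 0 ≤ F.capacity := Finset.sum_nonneg fun v _ => F.top_nonneg v

lemma val_nonneg (y : J → Bool) : 0 ≤ F.val y := by
  obtain ⟨C, -, h⟩ := exists_opt (F.graph y) (F.weight y)
  unfold val
  rw [h]
  exact Finset.sum_nonneg fun v _ => F.nonneg _ _

lemma val_le_capacity (y : J → Bool) : F.val y ≤ F.capacity := by
  classical
  have h : IsCover (F.graph y) univ := fun u v _ => Or.inl (mem_univ u)
  refine (opt_le (F.graph y) (F.weight y) h).trans ?_
  exact Finset.sum_le_sum fun v _ => F.wt_le_top v _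

open Classical in
/-- **The least weight changes at most by the capacity of the vertices whose label changes.** -/
lemma lip (y y' : J → Bool) :
    F.val y' ≤ F.val y + ∑ v ∈ univ.filter (fun v => F.lab y' v ≠ F.lab y v), F.top v := by
  obtain ⟨C, hC, h⟩ := exists_opt (F.graph y) (F.weight y)
  obtain ⟨D, hD⟩ : ∃ D, D = univ.filter (fun v => F.lab y' v ≠ F.lab y v) := ⟨_, rfl⟩
  have hcov : IsCover (F.graph y') (C ∪ D) := by
    intro u v huv
    rw [Finset.mem_union, Finset.mem_union]
    by_cases hu : F.lab y' u = F.lab y u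
    · by_cases hv : F.lab y' v = F.lab y v
      · have h1 : (F.graph y).Adj u v := by
          unfold graph at huv ⊢
          rw [SimpleGraph.fromRel_adj] at huv ⊢
          rw [hu, hv] at huv
          exact huv
        rcases hC u v h1 with h2 | h2
        · exact Or.inl (Or.inl h2)
        · exact Or.inr (Or.inl h2)
      · right; right
        rw [hD]
        exact Finset.mem_filter.2 ⟨mem_univ _, hv⟩
    · left; right
      rw [hD]
      exact Finset.mem_filter.2 ⟨mem_univ _, hu⟩
  have h1 := opt_le (F.graph y') (F.weight y') hcov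
  have h2 : ∑ v ∈ C ∪ D, F.weight y' v ≤ ∑ v ∈ C, F.weight y v + ∑ v ∈ D, F.top v := by
    have h3 : C ∪ D = (C \ D) ∪ D := by
      ext v
      simp only [Finset.mem_union, Finset.mem_sdiff]
      tauto
    rw [h3, Finset.sum_union Finset.sdiff_disjoint]
    apply add_le_add
    · have h4 : ∑ v ∈ C \ D, F.weight y' v = ∑ v ∈ C \ D, F.weight y v := by
        apply Finset.sum_congr rfl
        intro v hv
        have hv2 : v ∉ D := (Finset.mem_sdiff.1 hv).2
        have hv3 : F.lab y' v = F.lab y v := by
          by_contra hcon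
          apply hv2
          rw [hD]
          exact Finset.mem_filter.2 ⟨mem_univ _, hcon⟩
        unfold weight
        rw [hv3]
      rw [h4]
      exact Finset.sum_le_sum_of_subset_of_nonneg Finset.sdiff_subset
        fun v _ _ => F.nonneg _ _
    · exact Finset.sum_le_sum fun v _ => F.wt_le_top v _
  have h4 : F.val y = ∑ v ∈ C, F.weight y v := h
  have h5 : F.val y' ≤ ∑ v ∈ C ∪ D, F.weight y' v := h1
  rw [← hD, h4]
  exact h5.trans h2

open Classical in
lemma abs_lip (y y' : J → Bool) :
    |F.val y' - F.val y| ≤ ∑ v ∈ univ.filter (fun v => F.lab y' v ≠ F.lab y v), F.top v := by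
  have h1 := F.lip y y'
  have h2 := F.lip y' y
  have h3 : (univ.filter (fun v => F.lab y v ≠ F.lab y' v)) =
      univ.filter (fun v => F.lab y' v ≠ F.lab y v) := by
    apply Finset.filter_congr
    intro v _
    exact ne_comm
  rw [h3] at h2
  rw [abs_le]
  constructor <;> linarith

end Fam

end Pool.Agent.H284.VX
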