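import Pool.Agent.Run7.h284.PS.Sens

/-!
# The average sensitivity of polynomial threshold functions
-/

set_option autoImplicit false

namespace Pool.Agent.H284.VX

open Finset H568R2 Pool.Agent.H284.PS Pool.Agent.TH163.AC3

variable {I : Type} [Fintype I] [DecidableEq I]

/-- the discrete derivative -/
def Dv (i : I) (P : (I → Bool) → ℝ) (x : I → Bool) : ℝ :=
  P (Function.update x i true) - P (Function.update x i false)

/-- real functions of degree at most `t` -/
def DegLE : ℕ → ((I → Bool) → ℝ) → Prop
  | 0, P => ∀ x y, P x = P y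
  | t + 1, P => ∀ i, DegLE t (Dv i P)

omit [Fintype I] in
lemma DegLE.const (c : ℝ) : ∀ t : ℕ, DegLE (I := I) t (fun _ => c)
  | 0 => fun _ _ => rfl
  | t + 1 => fun i => by
    have h : Dv i (fun _ : I → Bool => c) = fun _ => 0 := by
      funext x
      unfold Dv
      ring
    rw [h]
    exact DegLE.const 0 t

omit [Fintype I] in
lemma DegLE.add : ∀ (t : ℕ) {P Q : (I → Bool) → ℝ}, DegLE t P → DegLE t Q →
    DegLE t (fun x => P x + Q x)
  | 0, P, Q, hP, hQ => fun x y => by
    show P x + Q x = P y + Q y
    rw [hP x y, hQ x y]
  | t + 1, P, Q, hP, hQ => fun i => by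
    have h : Dv i (fun x => P x + Q x) = fun x => Dv i P x + Dv i Q x := by
      funext x
      unfold Dv
      ring
    rw [h]
    exact DegLE.add t (hP i) (hQ i)

omit [Fintype I] in
lemma DegLE.smul (c : ℝ) : ∀ (t : ℕ) {P : (I → Bool) → ℝ}, DegLE t P →
    DegLE t (fun x => c * P x)
  | 0, P, hP => fun x y => by
    show c * P x = c * P y
    rw [hP x y]
  | t + 1, P, hP => fun i => by
    have h : Dv i (fun x => c * P x) = fun x => c * Dv i P x := by
      funext x
      unfold Dv
      ring
    rw [h]
    exact DegLE.smul c t (hP i)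

omit [Fintype I] in
lemma DegLE.sum {ι : Type*} (s : Finset ι) (t : ℕ) (P : ι → (I → Bool) → ℝ)
    (h : ∀ k ∈ s, DegLE t (P k)) : DegLE t (fun x => ∑ k ∈ s, P k x) := by
  classical
  induction s using Finset.induction_on with
  | empty =>
    simp only [Finset.sum_empty]
    exact DegLE.const 0 t
  | insert a s ha ih =>
    simp only [Finset.sum_insert ha]
    exact DegLE.add t (h a (Finset.mem_insert_self _ _))
      (ih fun k hk => h k (Finset.mem_insert_of_mem hk))

omit [Fintype I] in
lemma DegLE.succ : ∀ (t : ℕ) {P : (I → Bool) → ℝ}, DegLE t P → DegLE (t + 1) P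
  | 0, P, hP => fun i x y => by
    unfold Dv
    rw [hP (Function.update x i true) (Function.update x i false),
      hP (Function.update y i true) (Function.update y i false)]
    ring
  | t + 1, P, hP => fun i => DegLE.succ t (hP i)

omit [Fintype I] in
lemma DegLE.mono {t t' : ℕ} (h : t ≤ t') {P : (I → Bool) → ℝ} (hP : DegLE t P) : DegLE t' P := by
  induction h with
  | refl => exact hP
  | step _ ih => exact DegLE.succ _ ih

omit [Fintype I] in
/-- fix one variable -/
lemma DegLE.fix (i : I) (b : Bool) : ∀ (t : ℕ) {P : (I → Bool) → ℝ}, DegLE t P →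
    DegLE t (fun x => P (Function.update x i b))
  | 0, P, hP => fun x y => hP _ _
  | t + 1, P, hP => fun j => by
    by_cases hj : j = i
    · subst hj
      have h : Dv j (fun x => P (Function.update x j b)) = fun _ => 0 := by
        funext x
        unfold Dv
        simp
      rw [h]
      exact DegLE.const 0 t
    · have h : Dv j (fun x => P (Function.update x i b)) =
          fun x => Dv j P (Function.update x i b) := by
        funext x
        show P (Function.update (Function.update x j true) i b) -
          P (Function.update (Function.update x j false) i b) =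
          P (Function.update (Function.update x i b) j true) -
          P (Function.update (Function.update x i b) j false)
        rw [Function.update_comm hj, Function.update_comm hj]
      rw [h]
      exact DegLE.fix i b t (hP j)

omit [Fintype I] in
/-- multiply with one variable -/
lemma DegLE.mulX (i : I) : ∀ (t : ℕ) {P : (I → Bool) → ℝ}, DegLE t P →
    DegLE (t + 1) (fun x => (if x i = true then (1 : ℝ) else 0) * P x)
  | 0, P, hP => fun j x y => by
    unfold Dv
    have e1 : ∀ u v, P u = P v := hP
    by_cases hj : j = i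
    · subst hj
      simp only [Function.update_self, Bool.false_eq_true, if_true, if_false]
      rw [e1 (Function.update x j true) (Function.update y j true)]
      ring
    · have hij : i ≠ j := fun h => hj h.symm
      simp only [Function.update_of_ne hij]
      rw [e1 (Function.update x j true) (Function.update x j false),
        e1 (Function.update y j true) (Function.update y j false)]
      ring
  | t + 1, P, hP => fun j => by
    by_cases hj : j = i
    · subst hj
      have h : Dv j (fun x => (if x j = true then (1 : ℝ) else 0) * P x) =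
          fun x => P (Function.update x j true) := by
        funext x
        unfold Dv
        simp
      rw [h]
      exact DegLE.fix j true (t + 1) hP
    · have hij : i ≠ j := fun h => hj h.symm
      have h : Dv j (fun x => (if x i = true then (1 : ℝ) else 0) * P x) =
          fun x => (if x i = true then (1 : ℝ) else 0) * Dv j P x := by
        funext x
        unfold Dv
        simp only [Function.update_of_ne hij]
        ring
      rw [h]
      exact DegLE.mulX i t (hP j)

omit [Fintype I] in
/-- decision trees of depth `s` have degree at most `s` -/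
lemma DegLE.tree : ∀ T : TH163.AC3.Tree I,
    DegLE T.depth (fun x => if T.eval x = true then (1 : ℝ) else 0)
  | .leaf b => fun x y => rfl
  | .node i l r => by
    have h : (fun x : I → Bool => if (TH163.AC3.Tree.node i l r).eval x = true
        then (1 : ℝ) else 0) = fun x =>
        ((if x i = true then (1 : ℝ) else 0) * (if r.eval x = true then (1 : ℝ) else 0) +
        ((if l.eval x = true then (1 : ℝ) else 0) +
          (-1) * ((if x i = true then (1 : ℝ) else 0) *
            (if l.eval x = true then (1 : ℝ) else 0)))) := by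
      funext x
      have hev : (TH163.AC3.Tree.node i l r).eval x =
        if x i = true then r.eval x else l.eval x := rfl
      rw [hev]
      by_cases hx : x i = true
      · rw [if_pos hx, if_pos hx]
        ring
      · rw [if_neg hx, if_neg hx]
        ring
    rw [h]
    have hl := DegLE.tree l
    have hr := DegLE.tree r
    have hm : (TH163.AC3.Tree.node i l r).depth = max l.depth r.depth + 1 := rfl
    rw [hm]
    apply DegLE.add
    · exact DegLE.mulX i _ (DegLE.mono (le_max_right _ _) hr)
    · apply DegLE.add
      · exact DegLE.mono ((le_max_left _ _).trans (Nat.le_succ _)) hl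
      · apply DegLE.smul
        exact DegLE.mulX i _ (DegLE.mono (le_max_left _ _) hl)

omit [Fintype I] in
lemma DegLE.hasDT {s : ℕ} {f : (I → Bool) → Bool} (h : HasDT s f) :
    DegLE s (fun x => if f x = true then (1 : ℝ) else 0) := by
  obtain ⟨T, hT, he⟩ := h
  have h1 : (fun x => if f x = true then (1 : ℝ) else 0) =
      fun x => if T.eval x = true then (1 : ℝ) else 0 := by
    funext x
    rw [he x]
  rw [h1]
  exact DegLE.mono hT (DegLE.tree T)

/-- `P` depends only on the variables in `M` -/
def OnlyOn (M : Finset I) (P : (I → Bool) → ℝ) : Prop :=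
  ∀ x y : I → Bool, (∀ i ∈ M, x i = y i) → P x = P y

omit [Fintype I] in
lemma OnlyOn.dv {M : Finset I} {P : (I → Bool) → ℝ} (h : OnlyOn M P) (i : I) :
    OnlyOn M (Dv i P) := by
  intro x y hxy
  unfold Dv
  have key : ∀ b, P (Function.update x i b) = P (Function.update y i b) := by
    intro b
    apply h
    intro j hj
    by_cases hji : j = i
    · subst hji; simp
    · rw [Function.update_of_ne hji, Function.update_of_ne hji]
      exact hxy j hj
  rw [key, key]

/-- the sign of the bit -/
def chi (b : Bool) : ℝ := if b = true then 1 else -1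

/-- the sign of the number -/
noncomputable def sg (t : ℝ) : ℝ := if 0 < t then 1 else -1

/-- is `f` sensitive to the bit `i` at `x`? -/
noncomputable def sn (f : (I → Bool) → Bool) (i : I) (x : I → Bool) : ℝ :=
  if f (PS.flip x i) ≠ f x then 1 else 0

lemma SS_eq_sum (f : (I → Bool) → Bool) (x : I → Bool) : (SS f x : ℝ) = ∑ i, sn f i x := by
  unfold SS sn
  rw [Finset.card_filter]
  push_cast
  rfl

omit [Fintype I] in
lemma flip_flip (x : I → Bool) (i : I) : PS.flip (PS.flip x i) i = x := by
  funext k
  unfold PS.flip
  by_cases hk : k = i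
  · subst hk
    simp
  · simp [Function.update_of_ne hk]

/-- flipping a bit does not change the distribution -/
lemma Ex_flip (i : I) (H : (I → Bool) → ℝ) :
    Ex uw (fun x => H (PS.flip x i)) = Ex uw H := by
  unfold Ex
  have hw : ∀ x : I → Bool, ∏ k, uw (x k) = ∏ _k : I, (1 / 2 : ℝ) := fun x => rfl
  simp only [hw]
  rw [← Finset.mul_sum, ← Finset.mul_sum]
  congr 1
  exact Fintype.sum_equiv (Function.Involutive.toPerm (fun x => PS.flip x i)
    (fun x => flip_flip x i)) _ _ (fun x => rfl)

/-- symmetrisation -/
lemma Ex_symm (i : I) (H : (I → Bool) → ℝ) :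
    Ex uw H = Ex uw (fun x => (H x + H (PS.flip x i)) / 2) := by
  have h1 : (fun x => (H x + H (PS.flip x i)) / 2) =
      fun x => (1 / 2) * H x + (1 / 2) * H (PS.flip x i) := by
    funext x
    ring
  rw [h1, Ex_add, Ex_smul, Ex_smul, Ex_flip]
  ring

omit [Fintype I] in
lemma dv_flip (P : (I → Bool) → ℝ) (i : I) (x : I → Bool) : Dv i P (PS.flip x i) = Dv i P x := by
  unfold Dv PS.flip
  simp

lemma sg_pos {t : ℝ} (h : 0 < t) : sg t = 1 := by unfold sg; rw [if_pos h]

lemma sg_neg {t : ℝ} (h : ¬ 0 < t) : sg t = -1 := by unfold sg; rw [if_neg h]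

omit [Fintype I] in
/-- a sensitive bit is correlated with the sign of the derivative -/
lemma sens_sign (P : (I → Bool) → ℝ) (i : I) (x : I → Bool) :
    (sg (P x) * (chi (x i) * sg (Dv i P x)) +
      sg (P (PS.flip x i)) * (chi ((PS.flip x i) i) * sg (Dv i P (PS.flip x i)))) / 2 =
      sn (fun y => decide (0 < P y)) i x := by
  rw [dv_flip]
  obtain ⟨u, hu⟩ : ∃ u, u = P (Function.update x i true) := ⟨_, rfl⟩
  obtain ⟨v, hv⟩ : ∃ v, v = P (Function.update x i false) := ⟨_, rfl⟩
  have hD : Dv i P x = u - v := by rw [hu, hv]; rfl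
  rw [hD]
  have hsn : sn (fun y => decide (0 < P y)) i x =
    if decide (0 < P (PS.flip x i)) ≠ decide (0 < P x) then 1 else 0 := rfl
  rw [hsn]
  have c1 : chi true = 1 := rfl
  have c2 : chi false = -1 := by unfold chi; simp
  rcases hx : x i with _ | _
  · have h1 : Function.update x i false = x := by
      rw [← hx]; exact Function.update_eq_self i x
    have h2 : PS.flip x i = Function.update x i true := by
      unfold PS.flip; rw [hx]; rfl
    have h3 : (PS.flip x i) i = true := by rw [h2]; simp
    rw [h3, h2, ← hu]
    have h4 : P x = v := by rw [hv, h1]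
    rw [h4, c1, c2]
    by_cases a1 : 0 < u
    · by_cases a2 : 0 < v
      · rw [sg_pos a1, sg_pos a2]
        simp [a1, a2]
      · have a3 : 0 < u - v := by linarith
        rw [sg_pos a1, sg_neg a2, sg_pos a3]
        simp [a1, a2]
    · by_cases a2 : 0 < v
      · have a3 : ¬ 0 < u - v := by linarith
        rw [sg_neg a1, sg_pos a2, sg_neg a3]
        simp [a1, a2]
      · rw [sg_neg a1, sg_neg a2]
        simp [a1, a2]
  · have h1 : Function.update x i true = x := by
      rw [← hx]; exact Function.update_eq_self i x
    have h2 : PS.flip x i = Function.update x i false := by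
      unfold PS.flip; rw [hx]; rfl
    have h3 : (PS.flip x i) i = false := by rw [h2]; simp
    rw [h3, h2, ← hv]
    have h4 : P x = u := by rw [hu, h1]
    rw [h4, c1, c2]
    by_cases a1 : 0 < u
    · by_cases a2 : 0 < v
      · rw [sg_pos a1, sg_pos a2]
        simp [a1, a2]
      · have a3 : 0 < u - v := by linarith
        rw [sg_pos a1, sg_neg a2, sg_pos a3]
        simp [a1, a2]
    · by_cases a2 : 0 < v
      · have a3 : ¬ 0 < u - v := by linarith
        rw [sg_neg a1, sg_pos a2, sg_neg a3]
        simp [a1, a2]
      · rw [sg_neg a1, sg_neg a2]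
        simp [a1, a2]

lemma sg_abs (t : ℝ) : |sg t| = 1 := by
  unfold sg
  split_ifs <;> norm_num

lemma sg_sq (t : ℝ) : sg t * sg t = 1 := by
  unfold sg
  split_ifs <;> norm_num

lemma chi_sq (b : Bool) : chi b * chi b = 1 := by
  unfold chi
  cases b <;> norm_num

lemma chi_abs (b : Bool) : |chi b| = 1 := by
  unfold chi
  cases b <;> norm_num

lemma Ex_sens (P : (I → Bool) → ℝ) (i : I) :
    Ex uw (fun x => sg (P x) * (chi (x i) * sg (Dv i P x))) =
      Ex uw (sn (fun y => decide (0 < P y)) i) := by
  rw [Ex_symm i]
  congr 1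
  funext x
  exact sens_sign P i x

/-- two different bits -/
lemma Ex_pair (P : (I → Bool) → ℝ) {i j : I} (hij : i ≠ j) :
    Ex uw (fun x => (chi (x i) * sg (Dv i P x)) * (chi (x j) * sg (Dv j P x))) ≤
      Ex uw (sn (fun y => decide (0 < Dv j P y)) i) := by
  rw [Ex_symm i]
  apply Ex_mono uw_nonneg
  intro x
  rw [dv_flip]
  have h1 : (PS.flip x i) j = x j := by
    unfold PS.flip
    rw [Function.update_of_ne hij.symm]
  have h2 : chi ((PS.flip x i) i) = - chi (x i) := by
    unfold PS.flip chi
    rw [Function.update_self]
    cases x i <;> simp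
  rw [h1, h2]
  have h3 : (chi (x i) * sg (Dv i P x) * (chi (x j) * sg (Dv j P x)) +
      -chi (x i) * sg (Dv i P x) * (chi (x j) * sg (Dv j P (PS.flip x i)))) / 2 =
      (chi (x i) * sg (Dv i P x) * chi (x j)) *
        ((sg (Dv j P x) - sg (Dv j P (PS.flip x i))) / 2) := by ring
  rw [h3]
  refine (le_abs_self _).trans ?_
  rw [abs_mul, abs_mul, abs_mul, chi_abs, chi_abs, sg_abs, one_mul, one_mul, one_mul]
  unfold sn sg
  by_cases a1 : 0 < Dv j P x
  · by_cases a2 : 0 < Dv j P (PS.flip x i)
    · simp [a1, a2]
    · simp only [a1, a2, if_true, if_false]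
      norm_num
  · by_cases a2 : 0 < Dv j P (PS.flip x i)
    · simp only [a1, a2, if_true, if_false]
      norm_num
    · simp [a1, a2]

/-- the bound -/
noncomputable def aa (m : ℝ) : ℕ → ℝ
  | 0 => 0
  | t + 1 => Real.sqrt (m + m * aa m t)

lemma aa_nonneg (m : ℝ) (t : ℕ) : 0 ≤ aa m t := by
  cases t with
  | zero => exact le_rfl
  | succ t => exact Real.sqrt_nonneg _

omit [Fintype I] in
lemma sn_nonneg (f : (I → Bool) → Bool) (i : I) (x : I → Bool) : 0 ≤ sn f i x := by
  unfold sn
  split_ifs <;> norm_num

omit [Fintype I] in
lemma sn_zero {M : Finset I} {P : (I → Bool) → ℝ} (hM : OnlyOn M P) {i : I} (hi : i ∉ M)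
    (x : I → Bool) : sn (fun y => decide (0 < P y)) i x = 0 := by
  unfold sn
  have h : P (PS.flip x i) = P x := by
    apply hM
    intro j hj
    unfold PS.flip
    rw [Function.update_of_ne]
    rintro rfl
    exact hi hj
  simp [h]

/-- **The average sensitivity of a polynomial threshold function.** -/
theorem ptf (M : Finset I) : ∀ (t : ℕ) (P : (I → Bool) → ℝ), DegLE t P → OnlyOn M P →
    Ex uw (fun x => (SS (fun y => decide (0 < P y)) x : ℝ)) ≤ aa (M.card : ℝ) t := by
  intro t
  induction t with
  | zero =>
    intro P hP _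
    have h : ∀ x : I → Bool, (SS (fun y => decide (0 < P y)) x : ℝ) = 0 := by
      intro x
      rw [SS_eq_sum]
      apply Finset.sum_eq_zero
      intro i _
      unfold sn
      have h0 : P (PS.flip x i) = P x := hP _ _
      simp [h0]
    simp only [h]
    rw [Ex_const uw_sum]
    exact le_rfl
  | succ t ih =>
    intro P hP hM
    obtain ⟨m, hm⟩ : ∃ m : ℝ, m = M.card := ⟨_, rfl⟩
    have hm0 : 0 ≤ m := by rw [hm]; positivity
    rw [← hm]
    obtain ⟨W, hW⟩ : ∃ W : (I → Bool) → ℝ,
        W = fun x => ∑ i ∈ M, chi (x i) * sg (Dv i P x) := ⟨_, rfl⟩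
    have h1 : Ex uw (fun x => (SS (fun y => decide (0 < P y)) x : ℝ)) =
        Ex uw (fun x => sg (P x) * W x) := by
      have e1 : (fun x => (SS (fun y => decide (0 < P y)) x : ℝ)) =
          fun x => ∑ i ∈ M, sn (fun y => decide (0 < P y)) i x := by
        funext x
        rw [SS_eq_sum]
        symm
        apply Finset.sum_subset (Finset.subset_univ M)
        intro i _ hi
        exact sn_zero hM hi x
      rw [e1, Ex_sum, hW]
      simp only [Finset.mul_sum]
      rw [Ex_sum]
      apply Finset.sum_congr rfl
      intro i _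
      exact (Ex_sens P i).symm
    -- second moment
    have h2 : Ex uw (fun x => W x ^ 2) ≤ m + m * aa m t := by
      have e1 : (fun x => W x ^ 2) = fun x => ∑ i ∈ M, ∑ j ∈ M,
          (chi (x i) * sg (Dv i P x)) * (chi (x j) * sg (Dv j P x)) := by
        funext x
        rw [hW, sq, Finset.sum_mul_sum]
      rw [e1, Ex_sum]
      have e2 : ∀ i ∈ M, Ex uw (fun x => ∑ j ∈ M,
          (chi (x i) * sg (Dv i P x)) * (chi (x j) * sg (Dv j P x))) ≤
          1 + ∑ j ∈ M, Ex uw (sn (fun y => decide (0 < Dv j P y)) i) := by
        intro i hi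
        rw [Ex_sum]
        have e3 : ∀ j ∈ M, Ex uw (fun x =>
            (chi (x i) * sg (Dv i P x)) * (chi (x j) * sg (Dv j P x))) ≤
            (if i = j then 1 else 0) + Ex uw (sn (fun y => decide (0 < Dv j P y)) i) := by
          intro j _
          by_cases hij : i = j
          · subst hij
            rw [if_pos rfl]
            have e4 : (fun x : I → Bool => (chi (x i) * sg (Dv i P x)) *
                (chi (x i) * sg (Dv i P x))) = fun _ => 1 := by
              funext x
              have := chi_sq (x i)
              have := sg_sq (Dv i P x)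
              calc (chi (x i) * sg (Dv i P x)) * (chi (x i) * sg (Dv i P x)) =
                  (chi (x i) * chi (x i)) * (sg (Dv i P x) * sg (Dv i P x)) := by ring
                _ = 1 := by rw [chi_sq, sg_sq, one_mul]
            rw [e4, Ex_const uw_sum]
            have := Ex_nonneg uw_nonneg (sn_nonneg (fun y => decide (0 < Dv i P y)) i)
            linarith
          · rw [if_neg hij, zero_add]
            exact Ex_pair P hij
        refine (Finset.sum_le_sum e3).trans (le_of_eq ?_)
        rw [Finset.sum_add_distrib, Finset.sum_ite_eq, if_pos hi]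
      refine (Finset.sum_le_sum e2).trans ?_
      rw [Finset.sum_add_distrib, Finset.sum_const, nsmul_eq_mul, mul_one, ← hm,
        Finset.sum_comm]
      apply add_le_add le_rfl
      have e5 : ∀ j ∈ M, ∑ i ∈ M, Ex uw (sn (fun y => decide (0 < Dv j P y)) i) ≤ aa m t := by
        intro j _
        have e6 := ih (Dv j P) (hP j) (hM.dv j)
        have e7 : (fun x => (SS (fun y => decide (0 < Dv j P y)) x : ℝ)) =
            fun x => ∑ i ∈ M, sn (fun y => decide (0 < Dv j P y)) i x := by
          funext x
          rw [SS_eq_sum]
          symm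
          apply Finset.sum_subset (Finset.subset_univ M)
          intro i _ hi
          exact sn_zero (hM.dv j) hi x
        rw [e7, Ex_sum, ← hm] at e6
        exact e6
      refine (Finset.sum_le_sum e5).trans (le_of_eq ?_)
      rw [Finset.sum_const, nsmul_eq_mul, hm]
    rw [h1]
    show _ ≤ Real.sqrt (m + m * aa m t)
    apply Real.le_sqrt_of_sq_le
    refine le_trans ?_ h2
    -- Cauchy-Schwarz
    obtain ⟨e, he⟩ : ∃ e, e = Ex uw (fun x => sg (P x) * W x) := ⟨_, rfl⟩
    rw [← he]
    have h3 : Ex uw (fun x : I → Bool => 2 * e * (sg (P x) * W x) + -(e ^ 2)) ≤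
        Ex uw (fun x => W x ^ 2) := by
      apply Ex_mono uw_nonneg
      intro x
      have h4 : (sg (P x) * W x) ^ 2 = W x ^ 2 := by
        rw [mul_pow, sq, sg_sq, one_mul]
      nlinarith [sq_nonneg (sg (P x) * W x - e)]
    rw [Ex_add, Ex_smul, Ex_const uw_sum, ← he] at h3
    nlinarith [h3]

end Pool.Agent.H284.VX
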