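import Pool.Agent.Run7.h284.VX.Thr
import Pool.Agent.Run7.h284.VX.Core
import Pool.Agent.Run7.h284.VX.Par

/-!
# Reductions whose labels are threshold gates on top of circuits of bounded depth
-/

set_option autoImplicit false

namespace Pool.Agent.H284.VX

open Finset Filter H568R2 DomAC0 Pool.Agent.H284.PS

/-- **Threshold gates on top of polynomial-size circuits of bounded depth have small average
sensitivity.** -/
theorem thr_avg (d a : ℕ) : ∃ δ : ℝ, 0 < δ ∧ ∀ᶠ n : ℕ in atTop, ∀ (J : Type) (C : Circuit J)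
    (σ : (Fin n → Bool) → (J → Bool)), Single σ → C.size ≤ n ^ a →
    ∀ (N : Finset (J ⊕ Fin C.size)) (w : J ⊕ Fin C.size → ℝ) (θ : ℝ),
      (∀ u ∈ N, C.nodeDepth u ≤ d) →
      Ex uw (fun z : Fin n → Bool => (SS (fun x => thr C N w θ (σ x)) z : ℝ)) ≤
        (n : ℝ) ^ (1 - δ) := by
  obtain ⟨D, hD⟩ : ∃ D : ℕ, D = d + 1 := ⟨_, rfl⟩
  obtain ⟨s, hs⟩ : ∃ s : ℕ, s = 4 * D * (a + 1) := ⟨_, rfl⟩
  have hD1 : 1 ≤ D := by omega
  have hs1 : 1 ≤ s := by
    rw [hs]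
    have : 0 < 4 * D * (a + 1) := by positivity
    omega
  have hDr : (1 : ℝ) ≤ D := by exact_mod_cast hD1
  have hsr : (1 : ℝ) ≤ s := by exact_mod_cast hs1
  refine ⟨(1 / 2 : ℝ) ^ (s + 2), by positivity, ?_⟩
  have t1 : Tendsto (fun n : ℕ => (n : ℝ) ^ (((4 * D : ℕ) : ℝ)⁻¹)) atTop atTop :=
    (tendsto_rpow_atTop (by positivity)).comp tendsto_natCast_atTop_atTop
  have t2 : Tendsto (fun n : ℕ => (n : ℝ) ^ ((1 / 2 : ℝ) ^ (s + 2))) atTop atTop :=
    (tendsto_rpow_atTop (by positivity)).comp tendsto_natCast_atTop_atTop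
  filter_upwards [t1.eventually_ge_atTop (12 * s : ℝ), t2.eventually_ge_atTop (4 + D : ℝ),
    eventually_ge_atTop 1] with n hn1 hn2 hn3
  intro J C σ hσ hC N w θ hN
  have hnr : (1 : ℝ) ≤ n := by exact_mod_cast hn3
  have hn0 : (0 : ℝ) < n := by linarith
  obtain ⟨y, hy⟩ : ∃ y : ℝ, y = (n : ℝ) ^ (((4 * D : ℕ) : ℝ)⁻¹) := ⟨_, rfl⟩
  have hyn : y ^ (4 * D) = n := by
    rw [hy]
    exact Real.rpow_inv_natCast_pow hn0.le (by omega)
  rw [← hy] at hn1
  have hy1 : 12 ≤ y := by nlinarith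
  have hy0 : 0 < y := by linarith
  obtain ⟨q, hq⟩ : ∃ q : ℝ, q = 1 / y ^ 2 := ⟨_, rfl⟩
  have hq0 : 0 < q := by rw [hq]; positivity
  have hq1 : q ≤ 1 / 3 := by
    rw [hq]
    apply one_div_le_one_div_of_le (by norm_num)
    nlinarith
  have hcard : Fintype.card (Fin n) = n := Fintype.card_fin n
  have h1 := thr_sens C hσ hq0 hq1 (s := s) (d := D) hs1 (by rw [hcard]; exact hn3) N
    (fun u hu => (hN u hu).trans (by omega)) w θ
  rw [hcard] at h1
  obtain ⟨E, hE⟩ : ∃ E, E = Ex uw (fun z : Fin n → Bool =>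
    (SS (fun x => thr C N w θ (σ x)) z : ℝ)) := ⟨_, rfl⟩
  rw [← hE] at h1 ⊢
  obtain ⟨z, hz⟩ : ∃ z : ℝ, z = y ^ (2 * D) := ⟨_, rfl⟩
  have hz0 : 0 < z := by rw [hz]; positivity
  have hzz : z * z = n := by
    rw [hz, ← pow_add, ← hyn]
    congr 1
    ring
  have hqD : q ^ D = 1 / z := by
    rw [hq, hz, div_pow, one_pow, ← pow_mul]
  have hM : q ^ D * n = z := by
    rw [hqD, ← hzz]
    field_simp
  have hz1 : 1 ≤ z := by
    rw [hz]
    exact one_le_pow₀ (by linarith)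
  have h2 : (12 * s * q : ℝ) ^ (s + 1) ≤ 1 / (n : ℝ) ^ (a + 1) := by
    have e1 : (12 * s * q : ℝ) ≤ 1 / y := by
      rw [hq]
      rw [show (12 * s * (1 / y ^ 2) : ℝ) = (12 * s) / y ^ 2 by ring]
      rw [div_le_div_iff₀ (by positivity) hy0]
      nlinarith
    have e2 : (0 : ℝ) ≤ 12 * s * q := by positivity
    have e3 : (1 / y : ℝ) ≤ 1 := by
      rw [div_le_one hy0]
      linarith
    calc (12 * s * q : ℝ) ^ (s + 1) ≤ (1 / y) ^ (s + 1) := pow_le_pow_left₀ e2 e1 _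
      _ ≤ (1 / y) ^ s := pow_le_pow_of_le_one (by positivity) e3 (Nat.le_succ s)
      _ = 1 / (n : ℝ) ^ (a + 1) := by
        rw [div_pow, one_pow, hs, pow_mul, hyn]
  have h3 : (n : ℝ) * (D * C.size * (12 * s * q) ^ (s + 1)) ≤ D := by
    have e1 : (C.size : ℝ) ≤ (n : ℝ) ^ a := by exact_mod_cast hC
    calc (n : ℝ) * (D * C.size * (12 * s * q) ^ (s + 1)) ≤
          n * (D * (n : ℝ) ^ a * (1 / (n : ℝ) ^ (a + 1))) := by
          apply mul_le_mul_of_nonneg_left _ hn0.le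
          apply mul_le_mul _ h2 (by positivity) (by positivity)
          exact mul_le_mul_of_nonneg_left e1 (by positivity)
      _ = D := by
        rw [pow_succ]
        field_simp
  rw [hM, hqD] at h1
  have h4 : (1 : ℝ) ≤ z ^ rr s := Real.one_le_rpow hz1 (rr_nonneg s)
  have h5 : E ≤ (4 + D) * (z * z ^ rr s) := by
    have e1 : 1 / z * E ≤ (4 + D) * z ^ rr s := by
      have := h1.trans (add_le_add le_rfl h3)
      nlinarith
    have e2 : E = z * (1 / z * E) := by field_simp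
    rw [e2]
    calc z * (1 / z * E) ≤ z * ((4 + D) * z ^ rr s) := mul_le_mul_of_nonneg_left e1 hz0.le
      _ = (4 + D) * (z * z ^ rr s) := by ring
  have h6 : z = (n : ℝ) ^ (1 / 2 : ℝ) := by
    rw [← hzz, ← Real.sqrt_eq_rpow, Real.sqrt_mul_self hz0.le]
  have h7 : z * z ^ rr s = (n : ℝ) ^ (1 - (1 / 2 : ℝ) ^ (s + 1)) := by
    rw [h6, ← Real.rpow_mul hn0.le, ← Real.rpow_add hn0]
    congr 1
    unfold rr
    rw [pow_succ]
    ring
  rw [h7] at h5
  refine h5.trans ?_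
  calc (4 + D : ℝ) * (n : ℝ) ^ (1 - (1 / 2 : ℝ) ^ (s + 1)) ≤
        (n : ℝ) ^ ((1 / 2 : ℝ) ^ (s + 2)) * (n : ℝ) ^ (1 - (1 / 2 : ℝ) ^ (s + 1)) :=
        mul_le_mul_of_nonneg_right hn2 (Real.rpow_nonneg hn0.le _)
    _ = (n : ℝ) ^ (1 - (1 / 2 : ℝ) ^ (s + 2)) := by
        rw [← Real.rpow_add hn0]
        congr 1
        rw [pow_succ, pow_succ]
        ring

/-- Every bit of every label is computed by a threshold gate with arbitrary real weights, whose
inputs are arbitrarily many input bits and gates of depth at most `d` of a circuit with AND and OR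
gates of unbounded fan-in and NOT gates, which has at most `S` gates. -/
def Reduction.ThresholdOfDepth {J : Type} {Q B : ℕ} (T : Reduction J Q B) (d S : ℕ) : Prop :=
  ∀ ω q v b, ∃ (C : Circuit J) (N : Finset (J ⊕ Fin C.size)) (w : J ⊕ Fin C.size → ℝ) (θ : ℝ),
    C.size ≤ S ∧ (∀ u ∈ N, C.nodeDepth u ≤ d) ∧
    ∀ y, (T.inst ω q).label v b y =
      decide (θ < ∑ u ∈ N, if C.nodeVal y u = true then w u else 0)

/-- **The bound for threshold gates on top of circuits of bounded depth.** -/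
theorem threshold_depth (d a : ℕ) : ∃ δ : ℝ, 0 < δ ∧ ∀ᶠ n : ℕ in atTop,
    ∀ (J : Type) (L : (J → Bool) → Bool) (Q B : ℕ) (T : Reduction J Q B) (c R : ℝ), 1 < c →
      0 ≤ R → ParityProjects n L → T.Solves c L → T.Spread R → T.ThresholdOfDepth d (n ^ a) →
      (n : ℝ) ^ δ * Real.log c ≤ 3 * (Q * R * B) := by
  obtain ⟨δ, hδ, h⟩ := thr_avg d a
  refine ⟨δ, hδ, ?_⟩
  filter_upwards [h, eventually_ge_atTop 1] with n hn hn1
  intro J L Q B T c R hc hR hL hs hS hC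
  obtain ⟨σ, hσ, hp⟩ := hL
  have hn0 : (0 : ℝ) < n := by exact_mod_cast hn1
  have h1 := core T σ (A := (n : ℝ) ^ (1 - δ)) hc hR (Real.rpow_nonneg hn0.le _)
    (L := L) (by
      intro z i
      rw [hp, hp]
      exact parity_flip z i) hs hS (by
      intro ω q v b
      obtain ⟨C, N, w, θ, hC1, hC2, hC3⟩ := hC ω q v b
      have h2 := hn J C σ hσ hC1 N w θ hC2
      have h3 : (fun x : Fin n → Bool => thr C N w θ (σ x)) =
          fun z => (T.inst ω q).label v b (σ z) := by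
        funext x
        exact (hC3 (σ x)).symm
      rw [h3] at h2
      exact h2)
  rw [Fintype.card_fin] at h1
  have h2 : (n : ℝ) ^ (1 - δ) * (n : ℝ) ^ δ = n := by
    rw [← Real.rpow_add hn0]
    simp
  have h3 : 0 < (n : ℝ) ^ (1 - δ) := Real.rpow_pos_of_pos hn0 _
  have h4 : (n : ℝ) ^ (1 - δ) * ((n : ℝ) ^ δ * Real.log c) ≤
      (n : ℝ) ^ (1 - δ) * (3 * (Q * R * B)) := by
    calc (n : ℝ) ^ (1 - δ) * ((n : ℝ) ^ δ * Real.log c) =
        ((n : ℝ) ^ (1 - δ) * (n : ℝ) ^ δ) * Real.log c := by ring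
      _ = n * Real.log c := by rw [h2]
      _ ≤ 3 * (Q * R * B * (n : ℝ) ^ (1 - δ)) := h1
      _ = _ := by ring
  exact le_of_mul_le_mul_left h4 h3

end Pool.Agent.H284.VX
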