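import Pool.Agent.Run7.h284.VX.Ptf
import Pool.Agent.Run7.h284.PS.Circ

/-!
# The average sensitivity of threshold gates on top of circuits of bounded depth
-/

set_option autoImplicit false

namespace Pool.Agent.H284.VX

open Finset H568R2 DomAC0 Pool.Agent.H284.PS Pool.Agent.TH163.AC3

section num

/-- the exponent -/
noncomputable def rr (t : ℕ) : ℝ := 1 - (1 / 2 : ℝ) ^ t

lemma rr_nonneg (t : ℕ) : 0 ≤ rr t := by
  unfold rr
  have : (1 / 2 : ℝ) ^ t ≤ 1 := pow_le_one₀ (by norm_num) (by norm_num)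
  linarith

lemma rr_le (t : ℕ) : rr t ≤ 1 := by
  unfold rr
  have : (0 : ℝ) ≤ (1 / 2 : ℝ) ^ t := by positivity
  linarith

lemma aa_le (m : ℕ) (t : ℕ) : aa (m : ℝ) t ≤ 2 * (m : ℝ) ^ rr t := by
  rcases Nat.eq_zero_or_pos m with h0 | h0
  · subst h0
    have h1 : aa ((0 : ℕ) : ℝ) t = 0 := by
      cases t with
      | zero => rfl
      | succ t =>
        show Real.sqrt (((0 : ℕ) : ℝ) + ((0 : ℕ) : ℝ) * aa ((0 : ℕ) : ℝ) t) = 0
        simp
    rw [h1]
    have : (0 : ℝ) ≤ ((0 : ℕ) : ℝ) ^ rr t := Real.rpow_nonneg (Nat.cast_nonneg _) _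
    linarith
  · have hm : (1 : ℝ) ≤ m := by exact_mod_cast h0
    have hm0 : (0 : ℝ) < m := by linarith
    induction t with
    | zero =>
      show (0 : ℝ) ≤ _
      have : (0 : ℝ) ≤ (m : ℝ) ^ rr 0 := Real.rpow_nonneg hm0.le _
      linarith
    | succ t ih =>
      show Real.sqrt (m + m * aa (m : ℝ) t) ≤ _
      have h1 : (1 : ℝ) ≤ (m : ℝ) ^ rr t := Real.one_le_rpow hm (rr_nonneg t)
      have h2 : (m : ℝ) ^ rr (t + 1) * (m : ℝ) ^ rr (t + 1) = m * (m : ℝ) ^ rr t := by
        rw [← Real.rpow_add hm0]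
        have h3 : rr (t + 1) + rr (t + 1) = 1 + rr t := by
          unfold rr
          rw [pow_succ]
          ring
        rw [h3, Real.rpow_add hm0, Real.rpow_one]
      rw [Real.sqrt_le_left (by positivity)]
      rw [mul_pow, sq ((m : ℝ) ^ rr (t + 1)), h2]
      nlinarith

/-- linearisation of a concave power -/
lemma pow_lin {M r x : ℝ} (hM : 0 < M) (hr0 : 0 ≤ r) (hr1 : r ≤ 1) (hx : 0 ≤ x) :
    x ^ r ≤ M ^ r + M ^ (r - 1) * x := by
  have h1 : 0 ≤ M ^ r := Real.rpow_nonneg hM.le _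
  have h2 : 0 ≤ M ^ (r - 1) := Real.rpow_nonneg hM.le _
  rcases le_total x M with h | h
  · have := Real.rpow_le_rpow hx h hr0
    have := mul_nonneg h2 hx
    linarith
  · have hx0 : 0 < x := lt_of_lt_of_le hM h
    have h3 : x ^ r = x ^ (r - 1) * x := by
      rw [← Real.rpow_add_one hx0.ne']
      congr 1
      ring
    have h4 : x ^ (r - 1) ≤ M ^ (r - 1) :=
      Real.rpow_le_rpow_of_nonpos hM h (by linarith)
    rw [h3]
    have := mul_le_mul_of_nonneg_right h4 hx
    linarith

end num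

variable {I : Type} [Fintype I] [DecidableEq I] {J : Type}

/-- the first moment of the sensitivity and random restrictions -/
lemma first_moment {q : ℝ} (h0 : 0 ≤ q) (h1 : q ≤ 1) (f : (I → Bool) → Bool) :
    q * Ex uw (fun z : I → Bool => (SS f z : ℝ)) ≤
      Ex (wq q) (fun ρ : Restr I => Ex uw (fun x => (SS (rs f ρ) x : ℝ))) := by
  have h2 : q * Ex uw (fun z : I → Bool => (SS f z : ℝ)) =
      Ex uw (fun z : I → Bool => Ex (vp q) (fun Y => (ST f Y z : ℝ))) := by
    rw [← Ex_smul]
    congr 1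
    funext z
    obtain ⟨A, hA⟩ : ∃ A : Finset I, A = univ.filter fun i => f (PS.flip z i) ≠ f z := ⟨_, rfl⟩
    have hSS : (SS f z : ℝ) = A.card := by rw [hA]; rfl
    have hST : ∀ Y : I → Bool, (ST f Y z : ℝ) = ∑ i ∈ A, if Y i = true then (1 : ℝ) else 0 := by
      intro Y
      rw [hA, PS.ST, Finset.sum_ite, Finset.sum_const_zero, add_zero, Finset.sum_const,
        nsmul_eq_mul, mul_one, Finset.filter_filter]
      congr 2
      ext i
      simp [and_comm]
    simp only [hST]
    rw [Ex_sum]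
    simp only [Ex_star]
    rw [Finset.sum_const, nsmul_eq_mul, hSS, mul_comm]
  rw [h2, ← Ex_ov q (fun Y z => (ST f Y z : ℝ))]
  apply Ex_mono (wq_nonneg h0 h1)
  intro ρ
  apply Ex_mono uw_nonneg
  intro x
  exact_mod_cast ST_le_SS f ρ x

/-- the expected number of stars -/
lemma Ex_stars (q : ℝ) :
    Ex (wq q) (fun ρ : Restr I => ((univ.filter fun i => (ρ i).isNone = true).card : ℝ)) =
      q * Fintype.card I := by
  have h1 : (fun ρ : Restr I => ((univ.filter fun i => (ρ i).isNone = true).card : ℝ)) =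
      fun ρ => ∑ i, if (ρ i).isNone = true then (1 : ℝ) else 0 := by
    funext ρ
    rw [Finset.card_filter]
    push_cast
    rfl
  rw [h1, Ex_sum]
  have h2 : ∀ i : I, Ex (wq q) (fun ρ : Restr I => if (ρ i).isNone = true then (1 : ℝ) else 0) =
      q := by
    intro i
    rw [Ex_resample (wq_sum q) _ i]
    have h : ∀ ρ : Restr I, ∑ a, wq q a *
        (if (Function.update ρ i a i).isNone = true then (1 : ℝ) else 0) = q := by
      intro ρ
      rw [Fintype.sum_option, Fintype.sum_bool]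
      simp [wq]
    simp only [h]
    exact Ex_const (wq_sum q) q
  simp only [h2]
  rw [Finset.sum_const, Finset.card_univ, nsmul_eq_mul, mul_comm]

/-- the value of a threshold gate with the inputs `N` -/
noncomputable def thr (C : Circuit J) (N : Finset (J ⊕ Fin C.size)) (w : J ⊕ Fin C.size → ℝ)
    (θ : ℝ) (y : J → Bool) : Bool :=
  decide (θ < ∑ u ∈ N, if C.nodeVal y u = true then w u else 0)

open Classical in
/-- **Restrictions of threshold gates on top of circuits of bounded depth.** -/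
theorem thr_sens (C : Circuit J) {σ : (I → Bool) → (J → Bool)} (hσ : Single σ) {q : ℝ}
    (h0 : 0 < q) (h1 : q ≤ 1 / 3) {s d : ℕ} (hs : 1 ≤ s) (hI : 1 ≤ Fintype.card I)
    (N : Finset (J ⊕ Fin C.size)) (hN : ∀ u ∈ N, C.nodeDepth u ≤ d) (w : J ⊕ Fin C.size → ℝ)
    (θ : ℝ) :
    q ^ d * Ex uw (fun z : I → Bool => (SS (fun x => thr C N w θ (σ x)) z : ℝ)) ≤
      4 * (q ^ d * Fintype.card I) ^ rr s +
        Fintype.card I * (d * C.size * (12 * s * q) ^ (s + 1)) := by
  obtain ⟨f, hf⟩ : ∃ f : (I → Bool) → Bool, f = fun x => thr C N w θ (σ x) := ⟨_, rfl⟩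
  obtain ⟨n, hn⟩ : ∃ n : ℝ, n = Fintype.card I := ⟨_, rfl⟩
  have hn1 : 1 ≤ n := by rw [hn]; exact_mod_cast hI
  have hqd0 : 0 < q ^ d := by positivity
  have hqd1 : q ^ d ≤ 1 := pow_le_one₀ h0.le (by linarith)
  rw [← hf, ← hn]
  obtain ⟨M, hM⟩ : ∃ M : ℝ, M = q ^ d * n := ⟨_, rfl⟩
  have hM0 : 0 < M := by rw [hM]; positivity
  rw [← hM]
  refine (first_moment hqd0.le hqd1 f).trans ?_
  have hpt : ∀ ρ : Restr I, Ex uw (fun x => (SS (rs f ρ) x : ℝ)) ≤
      (2 * M ^ rr s + 2 * M ^ (rr s - 1) *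
        ((univ.filter fun i => (ρ i).isNone = true).card : ℝ)) +
        n * (if ¬ Shal C σ s d ρ then (1 : ℝ) else 0) := by
    intro ρ
    obtain ⟨St, hSt⟩ : ∃ St : Finset I, St = univ.filter fun i => (ρ i).isNone = true :=
      ⟨_, rfl⟩
    rw [← hSt]
    have hnn : 0 ≤ 2 * M ^ rr s + 2 * M ^ (rr s - 1) * (St.card : ℝ) := by positivity
    by_cases hS : Shal C σ s d ρ
    · rw [if_neg (not_not.2 hS), mul_zero, add_zero]
      obtain ⟨P, hP⟩ : ∃ P : (I → Bool) → ℝ, P = fun x => (-θ) +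
          ∑ u ∈ N, w u * (if rs (fun x => C.nodeVal (σ x) u) ρ x = true then (1 : ℝ) else 0) :=
        ⟨_, rfl⟩
      have hfP : rs f ρ = fun x => decide (0 < P x) := by
        funext x
        rw [hf, hP]
        show thr C N w θ (σ (ov ρ x)) = _
        unfold thr
        rw [decide_eq_decide]
        have e1 : ∑ u ∈ N, (if C.nodeVal (σ (ov ρ x)) u = true then w u else 0) =
            ∑ u ∈ N, w u * (if rs (fun x => C.nodeVal (σ x) u) ρ x = true
              then (1 : ℝ) else 0) := by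
          apply Finset.sum_congr rfl
          intro u _
          show (if C.nodeVal (σ (ov ρ x)) u = true then w u else 0) =
            w u * (if C.nodeVal (σ (ov ρ x)) u = true then (1 : ℝ) else 0)
          split_ifs <;> ring
        rw [e1]
        constructor <;> intro h <;> linarith
      have hdeg : DegLE s P := by
        rw [hP]
        apply DegLE.add s (DegLE.const _ s)
        apply DegLE.sum
        intro u hu
        apply DegLE.smul
        exact DegLE.hasDT (node_dt' C hσ hs hS u (hN u hu))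
      have hon : OnlyOn St P := by
        intro x y hxy
        rw [hP]
        have e1 : ov ρ x = ov ρ y := by
          funext i
          unfold ov
          cases hρ : ρ i with
          | none =>
            show x i = y i
            apply hxy
            rw [hSt]
            exact Finset.mem_filter.2 ⟨mem_univ _, by rw [hρ]; rfl⟩
          | some a => rfl
        show (-θ) + ∑ u ∈ N, w u * (if C.nodeVal (σ (ov ρ x)) u = true then (1 : ℝ) else 0) =
          (-θ) + ∑ u ∈ N, w u * (if C.nodeVal (σ (ov ρ y)) u = true then (1 : ℝ) else 0)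
        rw [e1]
      rw [hfP]
      refine (ptf St s P hdeg hon).trans ((aa_le St.card s).trans ?_)
      have := pow_lin hM0 (rr_nonneg s) (rr_le s) (x := (St.card : ℝ)) (Nat.cast_nonneg _)
      linarith
    · rw [if_pos hS, mul_one]
      have e1 : Ex uw (fun x => (SS (rs f ρ) x : ℝ)) ≤ n := by
        have e2 := Ex_mono (I := I) uw_nonneg (F := fun x => (SS (rs f ρ) x : ℝ))
          (G := fun _ => n) (fun x => by rw [hn]; exact_mod_cast SS_le_card _ _)
        rwa [Ex_const uw_sum] at e2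
      linarith
  refine (Ex_mono (wq_nonneg hqd0.le hqd1) hpt).trans ?_
  rw [Ex_add, Ex_add, Ex_const (wq_sum _), Ex_smul (wq (q ^ d)) (2 * M ^ (rr s - 1)),
    Ex_smul (wq (q ^ d)) n, Ex_stars, ← hn, ← hM]
  have h2 := coll C hσ h0.le h1 hs d
  have h3 : M ^ (rr s - 1) * M = M ^ rr s := by
    rw [← Real.rpow_add_one hM0.ne']
    congr 1
    ring
  have h4 : n * Ex (wq (q ^ d)) (fun ρ : Restr I => if ¬ Shal C σ s d ρ then (1 : ℝ) else 0) ≤
      n * (d * C.size * (12 * s * q) ^ (s + 1)) :=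
    mul_le_mul_of_nonneg_left h2 (by linarith)
  have h5 : 2 * M ^ (rr s - 1) * M = 2 * M ^ rr s := by
    rw [mul_assoc, h3]
  rw [h5]
  linarith

end Pool.Agent.H284.VX
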